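import Pool.Agent.Helper95.SH.Dat

/-!
# Project RC, SHARP: the aligned moments in the moving frame

`X1 P b z = w g1(b, z)`, `X2 P b z = w g2(b, z)`.  `eA_mov`: `e_l = ∑_j [(1-l)/2 ⟨X_j conj(v_j)^(l+1) ee(-l t)⟩ +
(1+l)/2 ⟨conj X_j conj(v_j)^(l-1) ee(-l t)⟩]`, `e00_mov`: `e_0 = ∑_j Re ⟨X_j conj v_j⟩`.  `mvD_app`: if the powers `v_j^m` are
replaced by functions with the sup errors `ε m`, the moment changes by at most
`((l-1)/2 ε (l+1) + (l+1)/2 ε (l-1)) ⟨|X_j|⟩`; for trigonometric polynomials the result is a finite linear form in the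
coefficients (`mvD_tp`).
-/

open MeasureTheory Set Filter Topology

namespace Helper85.SH

open Helper49.LT hiding sg
open Helper49.RC (om)
open Helper95.RC
open Helper95.SH
open Helper87.RC (Fam BM intg_of_bddC intg_of_bdd fc_eq fc_sub fc_cmul fc_add fc_conj pars pars2 fc_G1 fc_G2)
open Helper56.RC (fc)
open Helper44.RCG (G1 G2 N0)
open Helper44.GQ (aQ cQ AdmQ A0Q AAQ BBQ FMQ mQ Rq F1Q F2Q)
open Helper49.RC (vvS Wgt)
open Pool.Agent.Helper20.RC (lk lk_ge lk_sq eD eM sM DensI alQ wR wR_wgt)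
open Helper49.Sharp (Par g1 g2)

/-! ## Means -/

theorem av_shift {f : ℝ → ℂ} (hf : ∀ t, f (t + 2 * Real.pi) = f t) (c : ℝ) : (av fun t => f (t + c)) = av f := by
  have hp : Function.Periodic f (2 * Real.pi) := hf
  unfold av
  rw [intervalIntegral.integral_comp_add_right f c]
  have := hp.intervalIntegral_add_eq (0 + c) 0
  rw [zero_add] at this
  rw [zero_add, add_comm (2 * Real.pi) c, this, zero_add]

theorem av_cmul (c : ℂ) (f : ℝ → ℂ) : (av fun t => c * f t) = c * av f := by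
  unfold av
  rw [intervalIntegral.integral_const_mul]
  ring

theorem av_add {f g : ℝ → ℂ} {C D : ℝ} (hf : BM f C) (hg : BM g D) :
    (av fun t => f t + g t) = av f + av g := by
  unfold av
  rw [intervalIntegral.integral_add (hf.i _ _) (hg.i _ _)]
  ring

theorem av_sub {f g : ℝ → ℂ} {C D : ℝ} (hf : BM f C) (hg : BM g D) :
    (av fun t => f t - g t) = av f - av g := by
  unfold av
  rw [intervalIntegral.integral_sub (hf.i _ _) (hg.i _ _)]
  ring

theorem av_sum {ι : Type*} (S : Finset ι) {f : ι → ℝ → ℂ} {C : ι → ℝ} (hf : ∀ i, BM (f i) (C i)) :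
    (av fun t => ∑ i ∈ S, f i t) = ∑ i ∈ S, av (f i) := by
  unfold av
  rw [intervalIntegral.integral_finsetSum fun i _ => (hf i).i _ _, Finset.mul_sum]

theorem av_conj (f : ℝ → ℂ) : (av fun t => (starRingEnd ℂ) (f t)) = (starRingEnd ℂ) (av f) := by
  unfold av
  have hpi := Real.pi_pos
  rw [map_mul, intervalIntegral.integral_of_le (by positivity), intervalIntegral.integral_of_le (by positivity),
    integral_conj]
  congr 1
  have e : (1 / (2 * Real.pi) : ℂ) = ((1 / (2 * Real.pi) : ℝ) : ℂ) := by push_cast; rfl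
  rw [e, Complex.conj_ofReal]

/-- mean of the norm -/
noncomputable def avn (f : ℝ → ℂ) : ℝ := 1 / (2 * Real.pi) * ∫ t in (0 : ℝ)..(2 * Real.pi), ‖f t‖

theorem avn_nonneg (f : ℝ → ℂ) : 0 ≤ avn f := by
  have hpi := Real.pi_pos
  unfold avn
  exact mul_nonneg (by positivity) (intervalIntegral.integral_nonneg (by positivity) fun t _ => norm_nonneg _)

/-- the mean of a product with a small function -/
theorem av_small {f g : ℝ → ℂ} {C ε : ℝ} (hf : BM f C) (hg : ∀ t, ‖g t‖ ≤ ε * ‖f t‖) : ‖av g‖ ≤ ε * avn f := by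
  have hpi := Real.pi_pos
  unfold av avn
  rw [norm_mul]
  have hn : ‖(1 / (2 * Real.pi) : ℂ)‖ = 1 / (2 * Real.pi) := by
    rw [norm_div, norm_mul, norm_one, Complex.norm_real, Complex.norm_ofNat, Real.norm_of_nonneg hpi.le]
  rw [hn]
  have h1 : ‖∫ t in (0 : ℝ)..(2 * Real.pi), g t‖ ≤ ∫ t in (0 : ℝ)..(2 * Real.pi), ε * ‖f t‖ := by
    refine intervalIntegral.norm_integral_le_of_norm_le (by positivity) (Filter.Eventually.of_forall fun t _ => hg t) ?_
    exact (hf.i _ _).norm.const_mul _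
  rw [intervalIntegral.integral_const_mul] at h1
  calc 1 / (2 * Real.pi) * ‖∫ t in (0 : ℝ)..(2 * Real.pi), g t‖
      ≤ 1 / (2 * Real.pi) * (ε * ∫ t in (0 : ℝ)..(2 * Real.pi), ‖f t‖) := mul_le_mul_of_nonneg_left h1 (by positivity)
    _ = _ := by ring

/-! ## The moving frame -/

/-- the edges in the moving frame, times the weight -/
noncomputable def X1 (P : Par) (b z : ℝ → ℂ) (t : ℝ) : ℂ := (P.w t : ℂ) * g1 (b t) (z t)
noncomputable def X2 (P : Par) (b z : ℝ → ℂ) (t : ℝ) : ℂ := (P.w t : ℂ) * g2 (b t) (z t)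

theorem ee_npow (x : ℝ) (n : ℕ) : ee x ^ n = ee ((n : ℝ) * x) := by
  induction n with
  | zero => simp [ee_zero]
  | succ n ih =>
    rw [pow_succ, ih, ← ee_add]
    congr 1
    push_cast
    ring

theorem ee_two_pi_mul (n : ℕ) (x : ℝ) : ee (-((n : ℝ) * (x + 2 * Real.pi))) = ee (-((n : ℝ) * x)) := by
  have h : ee (-(2 * Real.pi)) = 1 := by
    unfold ee
    push_cast
    rw [show (-(2 * (Real.pi : ℂ))) * Complex.I = -(2 * Real.pi * Complex.I) by ring, Complex.exp_neg,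
      Complex.exp_two_pi_mul_I, inv_one]
  have h2 : ee (-((n : ℝ) * (2 * Real.pi))) = 1 := by
    rw [show -((n : ℝ) * (2 * Real.pi)) = (n : ℝ) * (-(2 * Real.pi)) by ring, ← ee_npow, h, one_pow]
  rw [show -((n : ℝ) * (x + 2 * Real.pi)) = -((n : ℝ) * x) + -((n : ℝ) * (2 * Real.pi)) by ring, ee_add, h2, mul_one]

theorem ee_add_two_pi (t : ℝ) : ee (t + 2 * Real.pi) = ee t := by
  rw [ee_add]
  have h : ee (2 * Real.pi) = 1 := by
    unfold ee
    push_cast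
    rw [show (2 * (Real.pi : ℂ)) * Complex.I = 2 * Real.pi * Complex.I by ring, Complex.exp_two_pi_mul_I]
  rw [h, mul_one]

section

variable {P : Par} {b z : ℝ → ℂ}

theorem w_wgt (h : P.Reg) : Wgt P.w := by
  refine wR_wgt ?_
  have := h.eta
  simp only [norm_zero, add_zero]
  linarith

theorem w_per (h : P.Reg) (t : ℝ) : P.w (t + 2 * Real.pi) = P.w t := by
  have := (w_wgt h).per
  rw [show t + 2 * Real.pi = t + Real.pi + Real.pi by ring, this, this]

theorem b_per (d : Dat b z) (t : ℝ) : b (t + 2 * Real.pi) = b t := by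
  rw [show t + 2 * Real.pi = t + Real.pi + Real.pi by ring, d.pb, d.pb]

theorem z_per (d : Dat b z) (t : ℝ) : z (t + 2 * Real.pi) = z t := by
  rw [show t + 2 * Real.pi = t + Real.pi + Real.pi by ring, d.pz, d.pz, neg_neg]

theorem X1_per (h : P.Reg) (d : Dat b z) (t : ℝ) : X1 P b z (t + 2 * Real.pi) = X1 P b z t := by
  unfold X1; rw [w_per h, b_per d, z_per d]

theorem X2_per (h : P.Reg) (d : Dat b z) (t : ℝ) : X2 P b z (t + 2 * Real.pi) = X2 P b z t := by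
  unfold X2; rw [w_per h, b_per d, z_per d]

theorem F1_mov (t : ℝ) : P.F1 b z (t + Real.pi / 3) = ee t * X1 P b z t := by
  unfold Par.F1 F1Q G1 X1 AAQ vvS g1
  rw [show t + Real.pi / 3 - Real.pi / 3 = t by ring]
  ring

theorem F2_mov (t : ℝ) : P.F2 b z (t + 2 * Real.pi / 3) = ee t * X2 P b z t := by
  unfold Par.F2 F2Q G2 X2 BBQ vvS g2
  rw [show t + 2 * Real.pi / 3 - 2 * Real.pi / 3 = t by ring]
  ring

theorem F1_per (h : P.Reg) (d : Dat b z) (θ : ℝ) : P.F1 b z (θ + 2 * Real.pi) = P.F1 b z θ := by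
  have h1 := F1_mov (P := P) (b := b) (z := z) (θ - Real.pi / 3)
  have h2 := F1_mov (P := P) (b := b) (z := z) (θ - Real.pi / 3 + 2 * Real.pi)
  rw [show θ - Real.pi / 3 + Real.pi / 3 = θ by ring] at h1
  rw [show θ - Real.pi / 3 + 2 * Real.pi + Real.pi / 3 = θ + 2 * Real.pi by ring] at h2
  rw [h1, h2, X1_per h d, ee_add_two_pi]

theorem F2_per (h : P.Reg) (d : Dat b z) (θ : ℝ) : P.F2 b z (θ + 2 * Real.pi) = P.F2 b z θ := by
  have h1 := F2_mov (P := P) (b := b) (z := z) (θ - 2 * Real.pi / 3)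
  have h2 := F2_mov (P := P) (b := b) (z := z) (θ - 2 * Real.pi / 3 + 2 * Real.pi)
  rw [show θ - 2 * Real.pi / 3 + 2 * Real.pi / 3 = θ by ring] at h1
  rw [show θ - 2 * Real.pi / 3 + 2 * Real.pi + 2 * Real.pi / 3 = θ + 2 * Real.pi by ring] at h2
  rw [h1, h2, X2_per h d, ee_add_two_pi]

theorem conj_v (x t : ℝ) (n : ℕ) : ee (-((n : ℝ) * x)) = (starRingEnd ℂ) (ee (x - t)) ^ n * ee (-((n : ℝ) * t)) := by
  rw [← ee_neg, ee_npow, ← ee_add]
  congr 1
  ring

/-- the moments of the family 1 in the moving frame -/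
theorem mo1_mov (h : P.Reg) (d : Dat b z) (n : ℕ) : mo P.ph1 (P.F1 b z) n =
    av fun t => X1 P b z t * (starRingEnd ℂ) (P.v1 t ^ n) * ee (-(((n : ℝ) - 1) * t)) := by
  unfold mo
  rw [← av_shift (c := Real.pi / 3) (f := fun θ => P.F1 b z θ * ee (-((n : ℝ) * P.ph1 θ)))]
  · congr 1
    funext t
    rw [F1_mov, conj_v (P.ph1 (t + Real.pi / 3)) t n, map_pow]
    unfold Par.v1
    rw [show -(((n : ℝ) - 1) * t) = t + -((n : ℝ) * t) by ring, ee_add]
    ring
  · intro t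
    show P.F1 b z (t + 2 * Real.pi) * ee (-((n : ℝ) * P.ph1 (t + 2 * Real.pi))) = P.F1 b z t * ee (-((n : ℝ) * P.ph1 t))
    rw [F1_per h d, h.pph1, ee_two_pi_mul]

theorem mo2_mov (h : P.Reg) (d : Dat b z) (n : ℕ) : mo P.ph2 (P.F2 b z) n =
    av fun t => X2 P b z t * (starRingEnd ℂ) (P.v2 t ^ n) * ee (-(((n : ℝ) - 1) * t)) := by
  unfold mo
  rw [← av_shift (c := 2 * Real.pi / 3) (f := fun θ => P.F2 b z θ * ee (-((n : ℝ) * P.ph2 θ)))]
  · congr 1
    funext t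
    rw [F2_mov, conj_v (P.ph2 (t + 2 * Real.pi / 3)) t n, map_pow]
    unfold Par.v2
    rw [show -(((n : ℝ) - 1) * t) = t + -((n : ℝ) * t) by ring, ee_add]
    ring
  · intro t
    show P.F2 b z (t + 2 * Real.pi) * ee (-((n : ℝ) * P.ph2 (t + 2 * Real.pi))) = P.F2 b z t * ee (-((n : ℝ) * P.ph2 t))
    rw [F2_per h d, h.pph2, ee_two_pi_mul]

theorem mo1c_mov (h : P.Reg) (d : Dat b z) (n : ℕ) : mo P.ph1 (fun t => (starRingEnd ℂ) (P.F1 b z t)) n =
    av fun t => (starRingEnd ℂ) (X1 P b z t) * (starRingEnd ℂ) (P.v1 t ^ n) * ee (-(((n : ℝ) + 1) * t)) := by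
  unfold mo
  rw [← av_shift (c := Real.pi / 3) (f := fun θ => (starRingEnd ℂ) (P.F1 b z θ) * ee (-((n : ℝ) * P.ph1 θ)))]
  · congr 1
    funext t
    rw [F1_mov, conj_v (P.ph1 (t + Real.pi / 3)) t n, map_pow, map_mul, ← ee_neg]
    unfold Par.v1
    rw [show -(((n : ℝ) + 1) * t) = -t + -((n : ℝ) * t) by ring, ee_add]
    ring
  · intro t
    show (starRingEnd ℂ) (P.F1 b z (t + 2 * Real.pi)) * ee (-((n : ℝ) * P.ph1 (t + 2 * Real.pi))) =
      (starRingEnd ℂ) (P.F1 b z t) * ee (-((n : ℝ) * P.ph1 t))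
    rw [F1_per h d, h.pph1, ee_two_pi_mul]

theorem mo2c_mov (h : P.Reg) (d : Dat b z) (n : ℕ) : mo P.ph2 (fun t => (starRingEnd ℂ) (P.F2 b z t)) n =
    av fun t => (starRingEnd ℂ) (X2 P b z t) * (starRingEnd ℂ) (P.v2 t ^ n) * ee (-(((n : ℝ) + 1) * t)) := by
  unfold mo
  rw [← av_shift (c := 2 * Real.pi / 3) (f := fun θ => (starRingEnd ℂ) (P.F2 b z θ) * ee (-((n : ℝ) * P.ph2 θ)))]
  · congr 1
    funext t
    rw [F2_mov, conj_v (P.ph2 (t + 2 * Real.pi / 3)) t n, map_pow, map_mul, ← ee_neg]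
    unfold Par.v2
    rw [show -(((n : ℝ) + 1) * t) = -t + -((n : ℝ) * t) by ring, ee_add]
    ring
  · intro t
    show (starRingEnd ℂ) (P.F2 b z (t + 2 * Real.pi)) * ee (-((n : ℝ) * P.ph2 (t + 2 * Real.pi))) =
      (starRingEnd ℂ) (P.F2 b z t) * ee (-((n : ℝ) * P.ph2 t))
    rw [F2_per h d, h.pph2, ee_two_pi_mul]

end

/-- the moment of order `l = 2 k + 2` of `X` along the powers `V m` -/
noncomputable def mvD (X : ℝ → ℂ) (V : ℕ → ℝ → ℂ) (k : ℕ) : ℂ :=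
  (1 - (lk k : ℂ)) / 2 * (av fun t => X t * (starRingEnd ℂ) (V (2 * k + 3) t) * ee (-(lk k * t)))
  + (1 + (lk k : ℂ)) / 2 * (av fun t => (starRingEnd ℂ) (X t) * (starRingEnd ℂ) (V (2 * k + 1) t) * ee (-(lk k * t)))

section

variable {P : Par} {b z : ℝ → ℂ}

/-- **the aligned moments in the moving frame** -/
theorem eA_mov (h : P.Reg) (d : Dat b z) (k : ℕ) :
    P.eA b z k = mvD (X1 P b z) (fun m t => P.v1 t ^ m) k + mvD (X2 P b z) (fun m t => P.v2 t ^ m) k := by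
  obtain ⟨C1, h1⟩ := bm_F1 (q := 2) (w_wgt h) d
  obtain ⟨C2, h2⟩ := bm_F2 (q := 2) (w_wgt h) d
  unfold Par.eA
  rw [eM_mo (g1 := P.F1 b z) (g2 := P.F2 b z) h1 h2 h.mph1 h.mph2]
  have e1 : lk k + 1 = ((2 * k + 3 : ℕ) : ℝ) := by unfold lk; push_cast; ring
  have e2 : lk k - 1 = ((2 * k + 1 : ℕ) : ℝ) := by unfold lk; push_cast; ring
  have e3 : ((2 * k + 3 : ℕ) : ℝ) - 1 = lk k := by rw [← e1]; ring
  have e4 : ((2 * k + 1 : ℕ) : ℝ) + 1 = lk k := by rw [← e2]; ring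
  rw [e1, e2, mo1_mov h d, mo2_mov h d, mo1c_mov h d, mo2c_mov h d, e3, e4]
  rfl

/-- **the aligned length in the moving frame** -/
theorem e00_mov (h : P.Reg) (d : Dat b z) : P.e00 b z =
    (av fun t => X1 P b z t * (starRingEnd ℂ) (P.v1 t)).re + (av fun t => X2 P b z t * (starRingEnd ℂ) (P.v2 t)).re := by
  obtain ⟨C1, h1⟩ := bm_F1 (q := 2) (w_wgt h) d
  obtain ⟨C2, h2⟩ := bm_F2 (q := 2) (w_wgt h) d
  unfold Par.e00
  rw [eM_mo (g1 := P.F1 b z) (g2 := P.F2 b z) h1 h2 h.mph1 h.mph2]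
  have a1 := mo1_mov h d 1
  have a2 := mo2_mov h d 1
  have c1 : mo P.ph1 (fun t => (starRingEnd ℂ) (P.F1 b z t)) (0 - 1) = (starRingEnd ℂ) (mo P.ph1 (P.F1 b z) 1) := by
    unfold mo
    rw [← av_conj]
    congr 1
    funext t
    rw [map_mul, ← ee_neg]
    congr 2
    ring
  have c2 : mo P.ph2 (fun t => (starRingEnd ℂ) (P.F2 b z t)) (0 - 1) = (starRingEnd ℂ) (mo P.ph2 (P.F2 b z) 1) := by
    unfold mo
    rw [← av_conj]
    congr 1
    funext t
    rw [map_mul, ← ee_neg]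
    congr 2
    ring
  rw [c1, c2, zero_add]
  rw [Nat.cast_one] at a1 a2
  rw [a1, a2]
  simp only [pow_one, sub_self, zero_mul, neg_zero, ee_zero, mul_one, Complex.ofReal_zero, sub_zero, add_zero,
    Complex.add_re]
  simp
  ring

end

/-! ## Approximation of the powers -/

section

variable {X : ℝ → ℂ} {C : ℝ} {V V' : ℕ → ℝ → ℂ} {D D' ε : ℕ → ℝ}

theorem bm_mv (hX : BM X C) (hV : ∀ m, BM (V m) (D m)) (m : ℕ) (l : ℝ) :
    BM (fun t => X t * (starRingEnd ℂ) (V m t) * ee (-(l * t))) (C * D m * 1) := by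
  have e : ∀ t : ℝ, ee (-(l * t)) = ee ((-l) * t) := fun t => by congr 1; ring
  simp_rw [e]
  exact (hX.mul (hV m).conj).mul (BM.eec _)

theorem mvD_app (hX : BM X C) (hV : ∀ m, BM (V m) (D m)) (hV' : ∀ m, BM (V' m) (D' m))
    (hε : ∀ m t, ‖V m t - V' m t‖ ≤ ε m) (k : ℕ) :
    ‖mvD X V k - mvD X V' k‖ ≤ ((lk k - 1) / 2 * ε (2 * k + 3) + (lk k + 1) / 2 * ε (2 * k + 1)) * avn X := by
  have hl := lk_ge k
  have s1 : ‖(av fun t => X t * (starRingEnd ℂ) (V (2 * k + 3) t) * ee (-(lk k * t)))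
      - (av fun t => X t * (starRingEnd ℂ) (V' (2 * k + 3) t) * ee (-(lk k * t)))‖ ≤ ε (2 * k + 3) * avn X := by
    rw [← av_sub (bm_mv hX hV _ _) (bm_mv hX hV' _ _)]
    refine av_small hX fun t => ?_
    rw [show X t * (starRingEnd ℂ) (V (2 * k + 3) t) * ee (-(lk k * t)) - X t * (starRingEnd ℂ) (V' (2 * k + 3) t) * ee (-(lk k * t))
      = (starRingEnd ℂ) (V (2 * k + 3) t - V' (2 * k + 3) t) * X t * ee (-(lk k * t)) by rw [map_sub]; ring,
      norm_mul, norm_mul, norm_ee, mul_one, RCLike.norm_conj]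
    exact mul_le_mul_of_nonneg_right (hε _ t) (norm_nonneg _)
  have s2 : ‖(av fun t => (starRingEnd ℂ) (X t) * (starRingEnd ℂ) (V (2 * k + 1) t) * ee (-(lk k * t)))
      - (av fun t => (starRingEnd ℂ) (X t) * (starRingEnd ℂ) (V' (2 * k + 1) t) * ee (-(lk k * t)))‖ ≤
      ε (2 * k + 1) * avn X := by
    rw [← av_sub (bm_mv hX.conj hV _ _) (bm_mv hX.conj hV' _ _)]
    refine av_small hX fun t => ?_
    rw [show (starRingEnd ℂ) (X t) * (starRingEnd ℂ) (V (2 * k + 1) t) * ee (-(lk k * t))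
        - (starRingEnd ℂ) (X t) * (starRingEnd ℂ) (V' (2 * k + 1) t) * ee (-(lk k * t))
      = (starRingEnd ℂ) (V (2 * k + 1) t - V' (2 * k + 1) t) * (starRingEnd ℂ) (X t) * ee (-(lk k * t)) by
        rw [map_sub]; ring,
      norm_mul, norm_mul, norm_ee, mul_one, RCLike.norm_conj, RCLike.norm_conj]
    exact mul_le_mul_of_nonneg_right (hε _ t) (norm_nonneg _)
  have n1 : ‖(1 - (lk k : ℂ)) / 2‖ = (lk k - 1) / 2 := by
    rw [show (1 - (lk k : ℂ)) / 2 = (((1 - lk k) / 2 : ℝ) : ℂ) by push_cast; rfl, Complex.norm_real,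
      Real.norm_eq_abs, abs_of_nonpos (by linarith)]
    ring
  have n2 : ‖(1 + (lk k : ℂ)) / 2‖ = (lk k + 1) / 2 := by
    rw [show (1 + (lk k : ℂ)) / 2 = (((1 + lk k) / 2 : ℝ) : ℂ) by push_cast; rfl, Complex.norm_real,
      Real.norm_eq_abs, abs_of_nonneg (by linarith)]
    ring
  unfold mvD
  set a := (av fun t => X t * (starRingEnd ℂ) (V (2 * k + 3) t) * ee (-(lk k * t)))
  set a' := (av fun t => X t * (starRingEnd ℂ) (V' (2 * k + 3) t) * ee (-(lk k * t)))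
  set c := (av fun t => (starRingEnd ℂ) (X t) * (starRingEnd ℂ) (V (2 * k + 1) t) * ee (-(lk k * t)))
  set c' := (av fun t => (starRingEnd ℂ) (X t) * (starRingEnd ℂ) (V' (2 * k + 1) t) * ee (-(lk k * t)))
  rw [show (1 - (lk k : ℂ)) / 2 * a + (1 + (lk k : ℂ)) / 2 * c - ((1 - (lk k : ℂ)) / 2 * a' + (1 + (lk k : ℂ)) / 2 * c') =
    (1 - (lk k : ℂ)) / 2 * (a - a') + (1 + (lk k : ℂ)) / 2 * (c - c') by ring]
  refine (norm_add_le _ _).trans ?_
  rw [norm_mul, norm_mul, n1, n2]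
  have q1 := mul_le_mul_of_nonneg_left s1 (show 0 ≤ (lk k - 1) / 2 by linarith)
  have q2 := mul_le_mul_of_nonneg_left s2 (show 0 ≤ (lk k + 1) / 2 by linarith)
  linarith

end

/-! ## Trigonometric polynomials: finite linear forms -/

/-- `∑_j a_j (fc X)(j + l)` -/
noncomputable def mvT (S : ℕ → Finset ℤ) (a : ℕ → ℤ → ℂ) (x : ℤ → ℂ) (k : ℕ) : ℂ :=
  (1 - (lk k : ℂ)) / 2 * ∑ n ∈ S (2 * k + 3), (starRingEnd ℂ) (a (2 * k + 3) n) * x (n + (2 * k + 2))
  + (1 + (lk k : ℂ)) / 2 * ∑ n ∈ S (2 * k + 1), (starRingEnd ℂ) (a (2 * k + 1) n * x (-(n + (2 * k + 2))))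

theorem av_fc (X : ℝ → ℂ) (n : ℤ) : (av fun t => X t * ee (-((n : ℝ) * t))) = fc X n := rfl

/-- **finite linear form** -/
theorem mvD_tp {X : ℝ → ℂ} {C : ℝ} (hX : BM X C) (S : ℕ → Finset ℤ) (a : ℕ → ℤ → ℂ) (k : ℕ) :
    mvD X (fun m => tp (S m) (a m)) k = mvT S a (fc X) k := by
  unfold mvD mvT
  congr 2
  · have e : ∀ t, X t * (starRingEnd ℂ) (tp (S (2 * k + 3)) (a (2 * k + 3)) t) * ee (-(lk k * t)) =
        ∑ n ∈ S (2 * k + 3), (starRingEnd ℂ) (a (2 * k + 3) n) * (X t * ee (-(((n + (2 * k + 2) : ℤ) : ℝ) * t))) := by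
      intro t
      unfold tp
      rw [map_sum, Finset.mul_sum, Finset.sum_mul]
      apply Finset.sum_congr rfl
      intro n _
      rw [map_mul, ← ee_neg, show -(((n + (2 * k + 2) : ℤ) : ℝ) * t) = -((n : ℝ) * t) + -(lk k * t) by
        unfold lk; push_cast; ring, ee_add]
      ring
    simp_rw [e]
    rw [av_sum (f := fun n t => (starRingEnd ℂ) (a (2 * k + 3) n) * (X t * ee (-(((n + (2 * k + 2) : ℤ) : ℝ) * t))))
      (C := fun n => ‖(starRingEnd ℂ) (a (2 * k + 3) n)‖ * (C * 1)) (S := S (2 * k + 3))]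
    · apply Finset.sum_congr rfl
      intro n _
      rw [av_cmul, av_fc]
    · intro n
      have e5 : ∀ t : ℝ, ee (-(((n + (2 * k + 2) : ℤ) : ℝ) * t)) = ee ((-((n + (2 * k + 2) : ℤ) : ℝ)) * t) := fun t => by
        congr 1; ring
      simp_rw [e5]
      exact (hX.mul (BM.eec _)).cmul _
  · have e : ∀ t, (starRingEnd ℂ) (X t) * (starRingEnd ℂ) (tp (S (2 * k + 1)) (a (2 * k + 1)) t) * ee (-(lk k * t)) =
        ∑ n ∈ S (2 * k + 1), (starRingEnd ℂ) (a (2 * k + 1) n * (X t * ee (-(((-(n + (2 * k + 2)) : ℤ) : ℝ) * t)))) := by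
      intro t
      unfold tp
      rw [map_sum, Finset.mul_sum, Finset.sum_mul]
      apply Finset.sum_congr rfl
      intro n _
      rw [map_mul, map_mul, map_mul, ← ee_neg, ← ee_neg, show - -(((-(n + (2 * k + 2)) : ℤ) : ℝ) * t) = -((n : ℝ) * t) + -(lk k * t) by
        unfold lk; push_cast; ring, ee_add]
      ring
    simp_rw [e]
    rw [av_sum (f := fun n t => (starRingEnd ℂ) (a (2 * k + 1) n * (X t * ee (-(((-(n + (2 * k + 2)) : ℤ) : ℝ) * t)))))
      (C := fun n => ‖a (2 * k + 1) n‖ * (C * 1)) (S := S (2 * k + 1))]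
    · apply Finset.sum_congr rfl
      intro n _
      rw [av_conj, av_cmul, av_fc]
    · intro n
      have e5 : ∀ t : ℝ, ee (-(((-(n + (2 * k + 2)) : ℤ) : ℝ) * t)) = ee ((-((-(n + (2 * k + 2)) : ℤ) : ℝ)) * t) :=
        fun t => by congr 1; ring
      simp_rw [e5]
      exact ((hX.mul (BM.eec _)).cmul _).conj

end Helper85.SH
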