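import Pool.Agent.Helper85.SH.TRow

/-!
# Project RC, SHARP: the local quadratic part with the weight

`lo t b z = f t * L(z - z0 t) - p2 (b₂ - b20 t)² - p3 (b₃ - b30 t)²`.  With `p = w b₂`, `r = w b₃`, `y = w z` the local part
`w ((9 - cs) |b|² + (m - λ) lo)` is at least
`(2 - w)(c2 p² + c3 r²) + 2 κ (p2 b20 p + p3 b30 r) - κ w (p2 b20² + p3 b30²) + κ f (2 - w) L(y - w z0)`, `κ = m - λ`,
`c_j = 9 - cs - κ p_j`.
-/

open MeasureTheory Set Filter Topology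

namespace Helper85.SH

open Helper49.LT hiding sg
open Helper49.RC (om)
open Helper95.RC
open Helper95.SH
open Helper87.RC (Fam BM intg_of_bddC intg_of_bdd fc_eq fc_sub fc_cmul fc_add fc_conj pars pars2 fc_G1 fc_G2)
open Helper56.RC (fc)
open Helper44.GQ (aQ cQ AdmQ A0Q AAQ BBQ FMQ mQ Rq F1Q F2Q)
open Helper49.RC (vvS Wgt)
open Pool.Agent.Helper20.RC (lk lk_ge lk_sq eD eM sM DensI alQ wR wR_wgt hw wR_bd)
open Helper49.Sharp (Par g1 g2 Hk D2 mean hA hA1)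

/-- the pointwise lower bound of the local part; `w` the weight, `κ = m - λ`, `c = 9 - cs` -/
noncomputable def lq (c κ p2 p3 w f b20 b30 : ℝ) (z0 : ℂ) (p r : ℝ) (y : ℂ) : ℝ :=
  (2 - w) * ((c - κ * p2) * p ^ 2 + (c - κ * p3) * r ^ 2) + 2 * κ * (p2 * b20 * p + p3 * b30 * r)
    - κ * w * (p2 * b20 ^ 2 + p3 * b30 ^ 2) + κ * f * (2 - w) * Lf (y - (w : ℂ) * z0)

theorem Lf_smul (w : ℝ) (z : ℂ) : Lf ((w : ℂ) * z) = w ^ 2 * Lf z := by
  unfold Lf
  rw [Complex.re_ofReal_mul, Complex.im_ofReal_mul]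
  ring

theorem Lf_nonneg (z : ℂ) : 0 ≤ Lf z := by unfold Lf; positivity

theorem lq_le {c κ p2 p3 w f b20 b30 : ℝ} {z0 b z : ℂ} (hw : 0 < w) (hκ : 0 ≤ κ) (h2 : 0 ≤ c - κ * p2)
    (h3 : 0 ≤ c - κ * p3) (hf : 0 ≤ f) :
    lq c κ p2 p3 w f b20 b30 z0 (w * b.re) (w * b.im) ((w : ℂ) * z) ≤
      w * (c * ‖b‖ ^ 2 + κ * (f * Lf (z - z0) - p2 * (b.re - b20) ^ 2 - p3 * (b.im - b30) ^ 2)) := by
  have hb : ‖b‖ ^ 2 = b.re ^ 2 + b.im ^ 2 := by
    rw [← Complex.normSq_eq_norm_sq, Complex.normSq_apply]; ring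
  unfold lq
  rw [← mul_sub, Lf_smul, hb]
  have hx : (2 - w) * w ^ 2 ≤ w := by nlinarith [sq_nonneg (w - 1)]
  have k1 := mul_le_mul_of_nonneg_right hx (show 0 ≤ (c - κ * p2) * b.re ^ 2 by positivity)
  have k2 := mul_le_mul_of_nonneg_right hx (show 0 ≤ (c - κ * p3) * b.im ^ 2 by positivity)
  have k3 := mul_le_mul_of_nonneg_right hx (show 0 ≤ κ * f * Lf (z - z0) from mul_nonneg (by positivity) (Lf_nonneg _))
  nlinarith

section

variable {P : Par} {b z : ℝ → ℂ}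

theorem w_pos (h : P.Reg) (t : ℝ) : 0 < P.w t := by
  have h1 := wR_bd P.eta 0 0 t
  have h2 := h.eta
  simp only [norm_zero, add_zero] at h1
  have h3 := (abs_le.1 h1).1
  show 0 < wR P.eta 0 0 t
  linarith

theorem w_le (h : P.Reg) (t : ℝ) : P.w t ≤ 3 / 2 := by
  have h1 := wR_bd P.eta 0 0 t
  have h2 := h.eta
  simp only [norm_zero, add_zero] at h1
  have h3 := (abs_le.1 h1).2
  show wR P.eta 0 0 t ≤ _
  linarith

end

/-! ## Bounded measurable real functions -/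

/-- bounded measurable real function -/
def BR (f : ℝ → ℝ) : Prop := Measurable f ∧ ∃ C, ∀ t, |f t| ≤ C

section

variable {f g : ℝ → ℝ}

theorem BR.ii (h : BR f) (a b : ℝ) : IntervalIntegrable f volume a b := by
  obtain ⟨hm, C, hC⟩ := h
  exact intg_of_bdd hm hC a b

theorem BR.add (hf : BR f) (hg : BR g) : BR fun t => f t + g t := by
  obtain ⟨hm, C, hC⟩ := hf
  obtain ⟨gm, D, hD⟩ := hg
  exact ⟨hm.add gm, C + D, fun t => (abs_add_le _ _).trans (add_le_add (hC t) (hD t))⟩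

theorem BR.sub (hf : BR f) (hg : BR g) : BR fun t => f t - g t := by
  obtain ⟨hm, C, hC⟩ := hf
  obtain ⟨gm, D, hD⟩ := hg
  exact ⟨hm.sub gm, C + D, fun t => (abs_sub _ _).trans (add_le_add (hC t) (hD t))⟩

theorem BR.mul (hf : BR f) (hg : BR g) : BR fun t => f t * g t := by
  obtain ⟨hm, C, hC⟩ := hf
  obtain ⟨gm, D, hD⟩ := hg
  refine ⟨hm.mul gm, C * D, fun t => ?_⟩
  rw [abs_mul]
  exact mul_le_mul (hC t) (hD t) (abs_nonneg _) ((abs_nonneg _).trans (hC t))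

theorem BR.cst (c : ℝ) : BR fun _ => c := ⟨measurable_const, |c|, fun _ => le_rfl⟩

theorem BR.cm (c : ℝ) (hf : BR f) : BR fun t => c * f t := (BR.cst c).mul hf

theorem BR.sq (hf : BR f) : BR fun t => f t ^ 2 := by
  have := hf.mul hf
  simp only [← pow_two] at this
  exact this

theorem BR.of_re {F : ℝ → ℂ} {C : ℝ} (hF : BM F C) : BR fun t => (F t).re :=
  ⟨Complex.measurable_re.comp hF.m, C, fun t => (Complex.abs_re_le_norm _).trans (hF.b t)⟩

theorem BR.of_im {F : ℝ → ℂ} {C : ℝ} (hF : BM F C) : BR fun t => (F t).im :=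
  ⟨Complex.measurable_im.comp hF.m, C, fun t => (Complex.abs_im_le_norm _).trans (hF.b t)⟩

theorem BR.Lf {F : ℝ → ℂ} {C : ℝ} (hF : BM F C) : BR fun t => Lf (F t) := by
  unfold Helper95.RC.Lf
  exact ((BR.of_re hF).sq.cm _).add ((BR.of_im hF).sq.cm _)

theorem mean_add (hf : BR f) (hg : BR g) : (mean fun t => f t + g t) = mean f + mean g := by
  unfold mean
  rw [intervalIntegral.integral_add (hf.ii _ _) (hg.ii _ _)]
  ring

theorem mean_sub (hf : BR f) (hg : BR g) : (mean fun t => f t - g t) = mean f - mean g := by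
  unfold mean
  rw [intervalIntegral.integral_sub (hf.ii _ _) (hg.ii _ _)]
  ring

theorem mean_cm (c : ℝ) (f : ℝ → ℝ) : (mean fun t => c * f t) = c * mean f := by
  unfold mean
  rw [intervalIntegral.integral_const_mul]
  ring

theorem mean_le (hf : BR f) (hg : BR g) (h : ∀ t, f t ≤ g t) : mean f ≤ mean g := by
  have hpi := Real.pi_pos
  unfold mean
  exact mul_le_mul_of_nonneg_left (intervalIntegral.integral_mono (by positivity) (hf.ii _ _) (hg.ii _ _) h) (by positivity)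

end

/-- the data of the local lower bound: `lo t b z = f t * L(z - z0 t) - p2 (b₂ - b20 t)² - p3 (b₃ - b30 t)²` -/
structure Lo (P : Par) (p2 p3 : ℝ) (f b20 b30 : ℝ → ℝ) (z0 : ℝ → ℂ) : Prop where
  hf : BR f
  f0 : ∀ t, 0 ≤ f t
  h20 : BR b20
  h30 : BR b30
  hz : ∃ C, BM z0 C
  k2 : 0 ≤ 9 - P.cs - (P.m - P.lam) * p2
  k3 : 0 ≤ 9 - P.cs - (P.m - P.lam) * p3
  lo : ∀ t b z, P.lo t b z = f t * Lf (z - z0 t) - p2 * (b.re - b20 t) ^ 2 - p3 * (b.im - b30 t) ^ 2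

section

variable {P : Par} {b z : ℝ → ℂ} {p2 p3 : ℝ} {f b20 b30 : ℝ → ℝ} {z0 : ℝ → ℂ}

/-- the integrand of the lower bound of the local part -/
noncomputable def lqm (P : Par) (p2 p3 : ℝ) (f b20 b30 : ℝ → ℝ) (z0 b z : ℝ → ℂ) (t : ℝ) : ℝ :=
  lq (9 - P.cs) (P.m - P.lam) p2 p3 (P.w t) (f t) (b20 t) (b30 t) (z0 t) (P.w t * (b t).re) (P.w t * (b t).im)
    ((P.w t : ℂ) * z t)

theorem br_w (h : P.Reg) : BR P.w := ⟨(w_wgt h).m, 3 / 2, fun t => by
  rw [abs_of_nonneg ((w_wgt h).nonneg t)]; exact w_le h t⟩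

theorem br_lqm (h : P.Reg) (d : Dat b z) (hl : Lo P p2 p3 f b20 b30 z0) : BR (lqm P p2 p3 f b20 b30 z0 b z) := by
  obtain ⟨Cz, hz⟩ := hl.hz
  obtain ⟨C2, h2⟩ := bm_wre (w_wgt h) d.hb
  obtain ⟨C3, h3⟩ := bm_wim (w_wgt h) d.hb
  obtain ⟨C4, h4⟩ := bm_wz (w_wgt h) d.hz
  obtain ⟨C1, h1⟩ := bmw (w_wgt h)
  have hw := br_w h
  have hp : BR fun t => P.w t * (b t).re := by
    have := BR.of_re h2
    simpa only [Complex.ofReal_re] using this
  have hr : BR fun t => P.w t * (b t).im := by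
    have := BR.of_re h3
    simpa only [Complex.ofReal_re] using this
  have hy : BR fun t => Lf ((P.w t : ℂ) * z t - (P.w t : ℂ) * z0 t) := BR.Lf (h4.sub (h1.mul hz))
  unfold lqm lq
  refine (((((BR.cst 2).sub hw).mul ((hp.sq.cm _).add (hr.sq.cm _))).add ((BR.cst (2 * (P.m - P.lam))).mul
    (((hl.h20.cm p2).mul hp).add ((hl.h30.cm p3).mul hr)))).sub ((hw.cm (P.m - P.lam)).mul
    ((hl.h20.sq.cm p2).add (hl.h30.sq.cm p3)))).add ((((hl.hf.cm (P.m - P.lam))).mul ((BR.cst 2).sub hw)).mul hy)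

/-- **the local part, in the mean** -/
theorem TL_mean (h : P.Reg) (h0 : P.a0 = fun _ => 0) (d : Dat b z) (hl : Lo P p2 p3 f b20 b30 z0) :
    2 * (mean fun t => P.w t * (P.T1 t (g1 (b t) (z t)) + P.T2 t (g2 (b t) (z t))))
      - 2 * P.lam * (mean fun t => P.w t * (((starRingEnd ℂ) (P.u1 t - P.v1 t) * g1 (b t) (z t)).re
          + ((starRingEnd ℂ) (P.u2 t - P.v2 t) * g2 (b t) (z t)).re))
      + mean (lqm P p2 p3 f b20 b30 z0 b z)
      ≤ mean (fun t => P.w t * P.TL t (b t) (z t)) := by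
  obtain ⟨C1, hX1⟩ := bm_X1 h d
  obtain ⟨C2, hX2⟩ := bm_X2 h d
  obtain ⟨Cz, hz⟩ := hl.hz
  obtain ⟨C5, h5⟩ := d.hz.b
  obtain ⟨C6, h6⟩ := d.hb.b
  have m1 : Measurable P.u1 := by unfold Par.u1; exact continuous_ee.measurable.comp h.ma1
  have m2 : Measurable P.u2 := by unfold Par.u2; exact continuous_ee.measurable.comp h.ma2
  have n1 : ∀ t, ‖P.u1 t‖ = 1 := fun t => by unfold Par.u1; exact norm_ee _
  have n2 : ∀ t, ‖P.u2 t‖ = 1 := fun t => by unfold Par.u2; exact norm_ee _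
  have c2 : Measurable fun t : ℝ => ee (2 * t) := continuous_ee.measurable.comp (measurable_id.const_mul 2)
  have c3 : Measurable fun t : ℝ => ee (-(2 * t)) := continuous_ee.measurable.comp (measurable_id.const_mul 2).neg
  have bt : ∀ (u : ℝ → ℂ), Measurable u → (∀ t, ‖u t‖ = 1) → BM (fun t => tf P.eta (u t) t) (1 + ‖P.eta‖ + 1 / 3 * ‖P.eta‖) := by
    intro u hu hn
    constructor
    · unfold tf
      exact ((Complex.continuous_conj.measurable.comp hu).sub ((c2.const_mul _).mul hu)).add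
        ((c3.const_mul _).mul (Complex.continuous_conj.measurable.comp (hu.pow_const 3)))
    · intro t
      unfold tf
      refine (norm_add_le _ _).trans (add_le_add ((norm_sub_le _ _).trans (le_of_eq ?_)) (le_of_eq ?_))
      · rw [RCLike.norm_conj, hn, norm_mul, norm_mul, hn, norm_ee, mul_one, mul_one]
      · rw [norm_mul, norm_mul, norm_mul, RCLike.norm_conj, RCLike.norm_conj, norm_ee, norm_pow, hn]
        norm_num
  have v1 := bm_v1 h 1
  have v2 := bm_v2 h 1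
  simp only [pow_one] at v1 v2
  have bu1 : BM P.u1 1 := ⟨m1, fun t => (n1 t).le⟩
  have bu2 : BM P.u2 1 := ⟨m2, fun t => (n2 t).le⟩
  have b1 : BR fun t => P.w t * (P.T1 t (g1 (b t) (z t)) + P.T2 t (g2 (b t) (z t))) := by
    have e : (fun t => P.w t * (P.T1 t (g1 (b t) (z t)) + P.T2 t (g2 (b t) (z t)))) =
        fun t => (tf P.eta (P.u1 t) t * X1 P b z t).re + (tf P.eta (P.u2 t) t * X2 P b z t).re := by
      funext t
      rw [T1_form h0, T2_form h0]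
      unfold X1 X2
      rw [show tf P.eta (P.u1 t) t * ((P.w t : ℂ) * g1 (b t) (z t)) = (P.w t : ℂ) * (tf P.eta (P.u1 t) t * g1 (b t) (z t)) by ring,
        show tf P.eta (P.u2 t) t * ((P.w t : ℂ) * g2 (b t) (z t)) = (P.w t : ℂ) * (tf P.eta (P.u2 t) t * g2 (b t) (z t)) by ring,
        Complex.re_ofReal_mul, Complex.re_ofReal_mul]
      ring
    rw [e]
    exact (BR.of_re ((bt _ m1 n1).mul hX1)).add (BR.of_re ((bt _ m2 n2).mul hX2))
  have b2 : BR fun t => P.w t * (((starRingEnd ℂ) (P.u1 t - P.v1 t) * g1 (b t) (z t)).re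
      + ((starRingEnd ℂ) (P.u2 t - P.v2 t) * g2 (b t) (z t)).re) := by
    have e : (fun t => P.w t * (((starRingEnd ℂ) (P.u1 t - P.v1 t) * g1 (b t) (z t)).re
      + ((starRingEnd ℂ) (P.u2 t - P.v2 t) * g2 (b t) (z t)).re)) =
        fun t => ((starRingEnd ℂ) (P.u1 t - P.v1 t) * X1 P b z t).re + ((starRingEnd ℂ) (P.u2 t - P.v2 t) * X2 P b z t).re := by
      funext t
      unfold X1 X2
      rw [show (starRingEnd ℂ) (P.u1 t - P.v1 t) * ((P.w t : ℂ) * g1 (b t) (z t)) = (P.w t : ℂ) * ((starRingEnd ℂ) (P.u1 t - P.v1 t) * g1 (b t) (z t)) by ring,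
        show (starRingEnd ℂ) (P.u2 t - P.v2 t) * ((P.w t : ℂ) * g2 (b t) (z t)) = (P.w t : ℂ) * ((starRingEnd ℂ) (P.u2 t - P.v2 t) * g2 (b t) (z t)) by ring,
        Complex.re_ofReal_mul, Complex.re_ofReal_mul]
      ring
    rw [e]
    exact (BR.of_re ((bu1.sub v1).conj.mul hX1)).add (BR.of_re ((bu2.sub v2).conj.mul hX2))
  have b3 : BR fun t => P.w t * ((9 - P.cs) * ‖b t‖ ^ 2 + (P.m - P.lam) * P.lo t (b t) (z t)) := by
    refine (br_w h).mul (BR.add ?_ ?_)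
    · have : BR fun t => ‖b t‖ ^ 2 := ⟨d.hb.m.norm.pow_const 2, C6 ^ 2, fun t => by
        rw [abs_of_nonneg (by positivity)]; exact pow_le_pow_left₀ (norm_nonneg _) (h6 t) 2⟩
      exact this.cm _
    · refine BR.cm _ ?_
      simp_rw [hl.lo]
      have q1 : BM z C5 := ⟨d.hz.m, h5⟩
      have q2 : BM b C6 := ⟨d.hb.m, h6⟩
      exact ((hl.hf.mul (BR.Lf (q1.sub hz))).sub (((BR.of_re q2).sub hl.h20).sq.cm _)).sub
        (((BR.of_im q2).sub hl.h30).sq.cm _)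
  have b4 := br_lqm h d hl
  rw [← mean_cm 2, ← mean_cm (2 * P.lam), ← mean_sub (b1.cm _) (b2.cm _), ← mean_add ((b1.cm _).sub (b2.cm _)) b4]
  have e : (fun t => P.w t * P.TL t (b t) (z t)) = fun t => (2 * (P.w t * (P.T1 t (g1 (b t) (z t)) + P.T2 t (g2 (b t) (z t))))
      - 2 * P.lam * (P.w t * (((starRingEnd ℂ) (P.u1 t - P.v1 t) * g1 (b t) (z t)).re
      + ((starRingEnd ℂ) (P.u2 t - P.v2 t) * g2 (b t) (z t)).re)))
      + P.w t * ((9 - P.cs) * ‖b t‖ ^ 2 + (P.m - P.lam) * P.lo t (b t) (z t)) := by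
    funext t
    unfold Par.TL
    ring
  rw [e]
  refine mean_le (((b1.cm _).sub (b2.cm _)).add b4) (((b1.cm _).sub (b2.cm _)).add b3) fun t => ?_
  refine add_le_add le_rfl ?_
  unfold lqm
  rw [hl.lo]
  exact lq_le (w_pos h t) h.m0 hl.k2 hl.k3 (hl.f0 t)

end

end Helper85.SH
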