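import Pool.Agent.Helper85.SH.Mom

/-!
# Project RC, SHARP: finite rows for the aligned moments, the aligned length and the linear part

`fc_X1`, `fc_X2`: the coefficients of `w g_j`.  `ms_X`: their masses.  `D2_head`: the head of the form `D2` with the moments
replaced by the finite rows `eRow` (powers `v_j^m` replaced by trigonometric polynomials), `e00_row`: the aligned length,
`T_row`: the tangent part `⟨w (T1(g1) + T2(g2))⟩`.  Errors: sup errors `ε m` of the powers times the masses of `w g_j`.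
-/

open MeasureTheory Set Filter Topology

namespace Helper85.SH

open Helper49.LT hiding sg
open Helper49.RC (om)
open Helper95.RC
open Helper95.SH
open Helper87.RC (Fam BM intg_of_bddC intg_of_bdd fc_eq fc_sub fc_cmul fc_add fc_conj pars pars2 fc_G1 fc_G2)
open Helper56.RC (fc)
open Helper44.GQ (aQ cQ AdmQ A0Q AAQ BBQ FMQ mQ Rq F1Q F2Q)
open Helper49.RC (vvS Wgt)
open Pool.Agent.Helper20.RC (lk lk_ge lk_sq eD eM sM DensI alQ wR wR_wgt)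
open Helper49.Sharp (Par g1 g2 Hk D2)

/-! ## Coefficients and masses of the edges -/

theorem g1_form (b z : ℂ) : g1 b z = om + (starRingEnd ℂ) om * (b.re : ℂ) + kq 2 * (b.im : ℂ) + z := by
  unfold g1
  rw [edge1]

theorem g2_form (b z : ℂ) :
    g2 b z = om ^ 2 + (starRingEnd ℂ) om ^ 2 * (b.re : ℂ) + (starRingEnd ℂ) (kq 2) * (b.im : ℂ) - z := by
  unfold g2
  rw [edge2]

theorem X1_form (P : Par) (b z : ℝ → ℂ) : X1 P b z = fun t => ((om * (P.w t : ℂ) +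
      (starRingEnd ℂ) om * ((P.w t * (b t).re : ℝ) : ℂ)) + kq 2 * ((P.w t * (b t).im : ℝ) : ℂ)) + (P.w t : ℂ) * z t := by
  funext t
  unfold X1
  rw [g1_form]
  push_cast
  ring

theorem X2_form (P : Par) (b z : ℝ → ℂ) : X2 P b z = fun t => ((om ^ 2 * (P.w t : ℂ) +
      (starRingEnd ℂ) om ^ 2 * ((P.w t * (b t).re : ℝ) : ℂ)) + (starRingEnd ℂ) (kq 2) * ((P.w t * (b t).im : ℝ) : ℂ))
      - (P.w t : ℂ) * z t := by
  funext t
  unfold X2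
  rw [g2_form]
  push_cast
  ring

section

variable {P : Par} {b z : ℝ → ℂ}

theorem bm_X1 (h : P.Reg) (d : Dat b z) : ∃ C, BM (X1 P b z) C := by
  obtain ⟨C1, h1⟩ := bmw (w_wgt h)
  obtain ⟨C2, h2⟩ := bm_wre (w_wgt h) d.hb
  obtain ⟨C3, h3⟩ := bm_wim (w_wgt h) d.hb
  obtain ⟨C4, h4⟩ := bm_wz (w_wgt h) d.hz
  rw [X1_form]
  exact ⟨_, (((h1.cmul _).add (h2.cmul _)).add (h3.cmul _)).add h4⟩

theorem bm_X2 (h : P.Reg) (d : Dat b z) : ∃ C, BM (X2 P b z) C := by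
  obtain ⟨C1, h1⟩ := bmw (w_wgt h)
  obtain ⟨C2, h2⟩ := bm_wre (w_wgt h) d.hb
  obtain ⟨C3, h3⟩ := bm_wim (w_wgt h) d.hb
  obtain ⟨C4, h4⟩ := bm_wz (w_wgt h) d.hz
  rw [X2_form]
  exact ⟨_, (((h1.cmul _).add (h2.cmul _)).add (h3.cmul _)).sub h4⟩

/-- the coefficients of `w g1` -/
theorem fc_X1 (h : P.Reg) (d : Dat b z) (n : ℤ) : fc (X1 P b z) n =
    om * wc P.w n + (starRingEnd ℂ) om * pc P.w b n + kq 2 * rc P.w b n + sc P.w z n := by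
  obtain ⟨C1, h1⟩ := bmw (w_wgt h)
  obtain ⟨C2, h2⟩ := bm_wre (w_wgt h) d.hb
  obtain ⟨C3, h3⟩ := bm_wim (w_wgt h) d.hb
  obtain ⟨C4, h4⟩ := bm_wz (w_wgt h) d.hz
  rw [X1_form, fc_add (((h1.cmul _).add (h2.cmul _)).add (h3.cmul _)) h4, fc_add ((h1.cmul om).add (h2.cmul _)) (h3.cmul _),
    fc_add (h1.cmul om) (h2.cmul _), fc_cmul, fc_cmul, fc_cmul]
  rfl

/-- the coefficients of `w g2` -/
theorem fc_X2 (h : P.Reg) (d : Dat b z) (n : ℤ) : fc (X2 P b z) n =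
    om ^ 2 * wc P.w n + (starRingEnd ℂ) om ^ 2 * pc P.w b n + (starRingEnd ℂ) (kq 2) * rc P.w b n - sc P.w z n := by
  obtain ⟨C1, h1⟩ := bmw (w_wgt h)
  obtain ⟨C2, h2⟩ := bm_wre (w_wgt h) d.hb
  obtain ⟨C3, h3⟩ := bm_wim (w_wgt h) d.hb
  obtain ⟨C4, h4⟩ := bm_wz (w_wgt h) d.hz
  rw [X2_form, fc_sub (((h1.cmul _).add (h2.cmul _)).add (h3.cmul _)) h4, fc_add ((h1.cmul _).add (h2.cmul _)) (h3.cmul _),
    fc_add (h1.cmul _) (h2.cmul _), fc_cmul, fc_cmul, fc_cmul]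
  rfl

end

/-- the mean of the norm and the mean square -/
theorem avn_sq_le {f : ℝ → ℂ} {C : ℝ} (hf : BM f C) : avn f ^ 2 ≤ ms f := by
  have hpi := Real.pi_pos
  set a := avn f with ha
  have i1 : IntervalIntegrable (fun t => ‖f t‖ ^ 2) volume 0 (2 * Real.pi) := by
    have := (hf.mul hf).i 0 (2 * Real.pi)
    have e : (fun t => ‖f t‖ ^ 2) = fun t => ‖f t * f t‖ := by funext t; rw [norm_mul]; ring
    rw [e]
    exact this.norm
  have i2 := (hf.i 0 (2 * Real.pi)).norm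
  have h0 : 0 ≤ ∫ t in (0 : ℝ)..(2 * Real.pi), (‖f t‖ - a) ^ 2 :=
    intervalIntegral.integral_nonneg (by positivity) fun t _ => sq_nonneg _
  have e1 : ∀ t, (‖f t‖ - a) ^ 2 = ‖f t‖ ^ 2 - (2 * a) * ‖f t‖ + a ^ 2 := fun t => by ring
  simp_rw [e1] at h0
  rw [intervalIntegral.integral_add (i1.sub (i2.const_mul _)) intervalIntegrable_const,
    intervalIntegral.integral_sub i1 (i2.const_mul _), intervalIntegral.integral_const_mul,
    intervalIntegral.integral_const, sub_zero, smul_eq_mul] at h0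
  have e2 : ∫ t in (0 : ℝ)..(2 * Real.pi), ‖f t‖ = 2 * Real.pi * a := by rw [ha]; unfold avn; field_simp
  have e3 : ∫ t in (0 : ℝ)..(2 * Real.pi), ‖f t‖ ^ 2 = 2 * Real.pi * ms f := by unfold ms; field_simp
  rw [e2, e3] at h0
  have h1 : 0 ≤ 2 * Real.pi * (ms f - a ^ 2) := by linarith
  have h2 := (mul_nonneg_iff_of_pos_left (by positivity)).1 h1
  linarith

theorem ms_mono {f : ℝ → ℂ} {g : ℝ → ℝ} {C D : ℝ} (hf : BM f C) (hg : Measurable g) (hb : ∀ t, |g t| ≤ D)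
    (h : ∀ t, ‖f t‖ ^ 2 ≤ g t) : ms f ≤ 1 / (2 * Real.pi) * ∫ t in (0 : ℝ)..(2 * Real.pi), g t := by
  have hpi := Real.pi_pos
  unfold ms
  refine mul_le_mul_of_nonneg_left ?_ (by positivity)
  refine intervalIntegral.integral_mono (by positivity) ?_ ?_ h
  · have := (hf.mul hf).i 0 (2 * Real.pi)
    have e : (fun t => ‖f t‖ ^ 2) = fun t => ‖f t * f t‖ := by funext t; rw [norm_mul]; ring
    rw [e]
    exact this.norm
  · exact (intg_of_bdd hg hb _ _)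

theorem sq4 (x y u v : ℂ) : ‖x + y + u + v‖ ^ 2 ≤ 4 * ‖x‖ ^ 2 + 4 * ‖y‖ ^ 2 + 4 * ‖u‖ ^ 2 + 4 * ‖v‖ ^ 2 := by
  have h1 : ‖x + y + u + v‖ ≤ ‖x‖ + ‖y‖ + ‖u‖ + ‖v‖ :=
    (norm_add_le _ _).trans (add_le_add ((norm_add_le _ _).trans (add_le_add (norm_add_le _ _) le_rfl)) le_rfl)
  have h2 := pow_le_pow_left₀ (norm_nonneg _) h1 2
  nlinarith [sq_nonneg (‖x‖ - ‖y‖), sq_nonneg (‖x‖ - ‖u‖), sq_nonneg (‖x‖ - ‖v‖), sq_nonneg (‖y‖ - ‖u‖),
    sq_nonneg (‖y‖ - ‖v‖), sq_nonneg (‖u‖ - ‖v‖)]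

theorem kq_two : ‖kq 2‖ ^ 2 = 49 / 16 := by
  have h3 : Real.sqrt 3 ^ 2 = 3 := Real.sq_sqrt (by norm_num)
  rw [← Complex.normSq_eq_norm_sq]
  unfold kq
  rw [Complex.normSq_apply]
  simp only [Complex.add_re, Complex.add_im, Complex.ofReal_re, Complex.ofReal_im, Complex.mul_re, Complex.mul_im,
    Complex.I_re, Complex.I_im]
  nlinarith

theorem norm_om : ‖om‖ = 1 := by unfold om; exact norm_ee _

/-- the mass `4 ⟨w²⟩ + 4 ⟨w² b₂²⟩ + (49/4) ⟨w² b₃²⟩ + 4 ⟨w² |z|²⟩` -/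
noncomputable def mass (P : Par) (b z : ℝ → ℂ) : ℝ :=
  4 * ms (fun t => (P.w t : ℂ)) + 4 * ms (fun t => ((P.w t * (b t).re : ℝ) : ℂ))
    + 49 / 4 * ms (fun t => ((P.w t * (b t).im : ℝ) : ℂ)) + 4 * ms (fun t => (P.w t : ℂ) * z t)

theorem mass_nonneg (P : Par) (b z : ℝ → ℂ) : 0 ≤ mass P b z := by
  unfold mass
  have h1 := ms_nonneg (fun t => (P.w t : ℂ))
  have h2 := ms_nonneg (fun t => ((P.w t * (b t).re : ℝ) : ℂ))
  have h3 := ms_nonneg (fun t => ((P.w t * (b t).im : ℝ) : ℂ))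
  have h4 := ms_nonneg (fun t => (P.w t : ℂ) * z t)
  linarith

theorem bm_sq {f : ℝ → ℂ} {C : ℝ} (hf : BM f C) : Measurable (fun t => ‖f t‖ ^ 2) ∧ ∀ t, |‖f t‖ ^ 2| ≤ C ^ 2 :=
  ⟨hf.m.norm.pow_const 2, fun t => by
    rw [abs_of_nonneg (by positivity)]
    exact pow_le_pow_left₀ (norm_nonneg _) (hf.b t) 2⟩

/-- a pointwise bound by four squares -/
theorem ms_four {f x y u v : ℝ → ℂ} {C C1 C2 C3 C4 a1 a2 a3 a4 : ℝ} (hf : BM f C) (hx : BM x C1) (hy : BM y C2)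
    (hu : BM u C3) (hv : BM v C4)
    (h : ∀ t, ‖f t‖ ^ 2 ≤ a1 * ‖x t‖ ^ 2 + a2 * ‖y t‖ ^ 2 + a3 * ‖u t‖ ^ 2 + a4 * ‖v t‖ ^ 2) :
    ms f ≤ a1 * ms x + a2 * ms y + a3 * ms u + a4 * ms v := by
  have hpi := Real.pi_pos
  have ix := (intg_of_bdd (bm_sq hx).1 (bm_sq hx).2 0 (2 * Real.pi))
  have iy := (intg_of_bdd (bm_sq hy).1 (bm_sq hy).2 0 (2 * Real.pi))
  have iu := (intg_of_bdd (bm_sq hu).1 (bm_sq hu).2 0 (2 * Real.pi))
  have iv := (intg_of_bdd (bm_sq hv).1 (bm_sq hv).2 0 (2 * Real.pi))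
  have i1 := (intg_of_bdd (bm_sq hf).1 (bm_sq hf).2 0 (2 * Real.pi))
  have h1 : ∫ t in (0 : ℝ)..(2 * Real.pi), ‖f t‖ ^ 2 ≤ ∫ t in (0 : ℝ)..(2 * Real.pi),
      (a1 * ‖x t‖ ^ 2 + a2 * ‖y t‖ ^ 2 + a3 * ‖u t‖ ^ 2 + a4 * ‖v t‖ ^ 2) :=
    intervalIntegral.integral_mono (by positivity) i1
      ((((ix.const_mul _).add (iy.const_mul _)).add (iu.const_mul _)).add (iv.const_mul _)) h
  rw [intervalIntegral.integral_add (((ix.const_mul _).add (iy.const_mul _)).add (iu.const_mul _)) (iv.const_mul _),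
    intervalIntegral.integral_add ((ix.const_mul _).add (iy.const_mul _)) (iu.const_mul _),
    intervalIntegral.integral_add (ix.const_mul _) (iy.const_mul _)] at h1
  simp only [intervalIntegral.integral_const_mul] at h1
  unfold ms
  have h2 := mul_le_mul_of_nonneg_left h1 (show 0 ≤ 1 / (2 * Real.pi) by positivity)
  refine h2.trans (le_of_eq ?_)
  ring

section

variable {P : Par} {b z : ℝ → ℂ}

theorem ms_X1_le (h : P.Reg) (d : Dat b z) : ms (X1 P b z) ≤ mass P b z := by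
  obtain ⟨C1, h1⟩ := bmw (w_wgt h)
  obtain ⟨C2, h2⟩ := bm_wre (w_wgt h) d.hb
  obtain ⟨C3, h3⟩ := bm_wim (w_wgt h) d.hb
  obtain ⟨C4, h4⟩ := bm_wz (w_wgt h) d.hz
  obtain ⟨C, hC⟩ := bm_X1 h d
  unfold mass
  refine ms_four hC h1 h2 h3 h4 fun t => ?_
  rw [X1_form]
  refine (sq4 _ _ _ _).trans (le_of_eq ?_)
  rw [norm_mul, norm_mul, norm_mul (kq 2), RCLike.norm_conj, norm_om, mul_pow ‖kq 2‖, kq_two]
  ring

theorem ms_X2_le (h : P.Reg) (d : Dat b z) : ms (X2 P b z) ≤ mass P b z := by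
  obtain ⟨C1, h1⟩ := bmw (w_wgt h)
  obtain ⟨C2, h2⟩ := bm_wre (w_wgt h) d.hb
  obtain ⟨C3, h3⟩ := bm_wim (w_wgt h) d.hb
  obtain ⟨C4, h4⟩ := bm_wz (w_wgt h) d.hz
  obtain ⟨C, hC⟩ := bm_X2 h d
  unfold mass
  refine ms_four hC h1 h2 h3 h4 fun t => ?_
  rw [X2_form]
  show ‖om ^ 2 * (P.w t : ℂ) + (starRingEnd ℂ) om ^ 2 * ((P.w t * (b t).re : ℝ) : ℂ)
    + (starRingEnd ℂ) (kq 2) * ((P.w t * (b t).im : ℝ) : ℂ) - (P.w t : ℂ) * z t‖ ^ 2 ≤ _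
  rw [sub_eq_add_neg]
  refine (sq4 _ _ _ _).trans (le_of_eq ?_)
  rw [norm_neg, norm_mul, norm_mul, norm_mul ((starRingEnd ℂ) (kq 2)), RCLike.norm_conj, norm_pow, norm_pow,
    RCLike.norm_conj, norm_om, mul_pow ‖kq 2‖, kq_two]
  ring

/-- `(⟨|X₁|⟩ + ⟨|X₂|⟩)² ≤ 4 mass` -/
theorem avn_mass (h : P.Reg) (d : Dat b z) : (avn (X1 P b z) + avn (X2 P b z)) ^ 2 ≤ 4 * mass P b z := by
  obtain ⟨C1, h1⟩ := bm_X1 h d
  obtain ⟨C2, h2⟩ := bm_X2 h d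
  have a1 := (avn_sq_le h1).trans (ms_X1_le h d)
  have a2 := (avn_sq_le h2).trans (ms_X2_le h d)
  nlinarith [sq_nonneg (avn (X1 P b z) - avn (X2 P b z))]

end

/-! ## The terms of `D2` -/

/-- one term of `D2` with the coefficients of the squares enlarged by `η` -/
noncomputable def ht (ν η : ℝ) (H γ e : ℂ) (l : ℝ) : ℝ :=
  2 * (H * (starRingEnd ℂ) e).re + 2 * (H * (starRingEnd ℂ) γ).re - (2 / ν * (l ^ 2 - 1) + η) * ‖H‖ ^ 2
    - (ν / 2 + η) * ‖e - γ‖ ^ 2 / (l ^ 2 - 1)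

theorem D2_ht (ν : ℝ) (H e γ : ℕ → ℂ) : D2 ν H e γ = ∑' k, ht ν 0 (H k) (γ k) (e k) (lk k) := by
  unfold D2 ht
  congr 1
  funext k
  rw [add_zero, add_zero]

theorem re_mul_conj_le (x y : ℂ) : |(x * (starRingEnd ℂ) y).re| ≤ ‖x‖ * ‖y‖ := by
  refine (Complex.abs_re_le_norm _).trans (le_of_eq ?_)
  rw [norm_mul, RCLike.norm_conj]

theorem ht_pert {ν η δ l : ℝ} {H γ e e' : ℂ} (hν : 0 < ν) (hν1 : ν ≤ 1) (hη : 0 < η) (hη1 : η ≤ 1) (hl : 3 ≤ l ^ 2 - 1)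
    (hδ : ‖e - e'‖ ≤ δ) : ht ν η H γ e' l - 2 / η * δ ^ 2 ≤ ht ν 0 H γ e l := by
  have hd0 : 0 ≤ δ := (norm_nonneg _).trans hδ
  have h1 : -(2 * ‖H‖ * δ) ≤ 2 * (H * (starRingEnd ℂ) (e - e')).re := by
    have := re_mul_conj_le H (e - e')
    have h2 := mul_le_mul_of_nonneg_left hδ (norm_nonneg H)
    have h3 := (abs_le.1 this).1
    linarith
  have h2 : 2 * (H * (starRingEnd ℂ) e).re = 2 * (H * (starRingEnd ℂ) e').re + 2 * (H * (starRingEnd ℂ) (e - e')).re := by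
    rw [map_sub, mul_sub, Complex.sub_re]; ring
  have h3 : ‖e - γ‖ ≤ ‖e' - γ‖ + δ := by
    rw [show e - γ = (e' - γ) + (e - e') by ring]
    exact (norm_add_le _ _).trans (by linarith)
  have h4 : ‖e - γ‖ ^ 2 ≤ (‖e' - γ‖ + δ) ^ 2 := pow_le_pow_left₀ (norm_nonneg _) h3 2
  set x := ‖H‖
  set y := ‖e' - γ‖
  set L := l ^ 2 - 1 with hL
  have hL0 : 0 < L := by linarith
  have hy : 0 ≤ y := norm_nonneg _
  have q1 : 2 * x * δ ≤ η * x ^ 2 + 1 / η * δ ^ 2 := by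
    have : 0 ≤ (η * x - δ) ^ 2 / η := by positivity
    have e1 : (η * x - δ) ^ 2 / η = η * x ^ 2 - 2 * x * δ + 1 / η * δ ^ 2 := by field_simp; ring
    linarith
  have q2 : ν / 2 * (y + δ) ^ 2 ≤ (ν / 2 + η) * y ^ 2 + 3 / η * δ ^ 2 := by
    have a1 : ν * (y * δ) ≤ η * y ^ 2 + ν ^ 2 / (4 * η) * δ ^ 2 := by
      have : 0 ≤ (2 * η * y - ν * δ) ^ 2 / (4 * η) := by positivity
      have e1 : (2 * η * y - ν * δ) ^ 2 / (4 * η) = η * y ^ 2 - ν * (y * δ) + ν ^ 2 / (4 * η) * δ ^ 2 := by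
        field_simp; ring
      linarith
    have a2 : ν ^ 2 / (4 * η) * δ ^ 2 ≤ 1 / (4 * η) * δ ^ 2 := by
      refine mul_le_mul_of_nonneg_right ?_ (sq_nonneg _)
      exact div_le_div_of_nonneg_right (by nlinarith) (by positivity)
    have a3 : ν / 2 * δ ^ 2 ≤ 1 / η * δ ^ 2 := by
      refine mul_le_mul_of_nonneg_right ?_ (sq_nonneg _)
      rw [le_div_iff₀ hη]
      nlinarith
    have a4 : 1 / (4 * η) * δ ^ 2 ≤ 1 / η * δ ^ 2 := by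
      refine mul_le_mul_of_nonneg_right ?_ (sq_nonneg _)
      exact one_div_le_one_div_of_le hη (by linarith)
    have e3 : 3 / η * δ ^ 2 = 1 / η * δ ^ 2 + 1 / η * δ ^ 2 + 1 / η * δ ^ 2 := by ring
    have a5 : 0 ≤ 1 / η * δ ^ 2 := by positivity
    nlinarith
  have q3 : ν / 2 * ‖e - γ‖ ^ 2 / L ≤ (ν / 2 + η) * y ^ 2 / L + 1 / η * δ ^ 2 := by
    have b1 : ν / 2 * ‖e - γ‖ ^ 2 ≤ (ν / 2 + η) * y ^ 2 + 3 / η * δ ^ 2 :=
      (mul_le_mul_of_nonneg_left h4 (by positivity)).trans q2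
    have b2 := div_le_div_of_nonneg_right b1 hL0.le
    rw [add_div] at b2
    have b3 : 3 / η * δ ^ 2 / L ≤ 1 / η * δ ^ 2 := by
      rw [div_le_iff₀ hL0]
      have : 0 ≤ 1 / η * δ ^ 2 := by positivity
      have e3 : 3 / η * δ ^ 2 = 1 / η * δ ^ 2 * 3 := by ring
      rw [e3]
      exact mul_le_mul_of_nonneg_left hl this
    linarith
  unfold ht
  rw [add_zero, add_zero, h2, ← hL]
  have e2 : 2 / η * δ ^ 2 = 1 / η * δ ^ 2 + 1 / η * δ ^ 2 := by ring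
  rw [e2]
  linarith

/-! ## The head of `D2` with finite rows -/

/-- the finite row of the moment `k` -/
noncomputable def eRow (P : Par) (b z : ℝ → ℂ) (S : ℕ → Finset ℤ) (a1 a2 : ℕ → ℤ → ℂ) (k : ℕ) : ℂ :=
  mvT S a1 (fc (X1 P b z)) k + mvT S a2 (fc (X2 P b z)) k

/-- the error of the row `k` -/
noncomputable def er (ε : ℕ → ℝ) (k : ℕ) : ℝ := (lk k - 1) / 2 * ε (2 * k + 3) + (lk k + 1) / 2 * ε (2 * k + 1)

section

variable {P : Par} {b z : ℝ → ℂ} {S : ℕ → Finset ℤ} {a1 a2 : ℕ → ℤ → ℂ} {ε : ℕ → ℝ}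

theorem mvD_app2 {X : ℝ → ℂ} {C : ℝ} (hX : BM X C) {V : ℕ → ℝ → ℂ} {D : ℕ → ℝ} (hV : ∀ m, BM (V m) (D m))
    (a : ℕ → ℤ → ℂ) (k : ℕ) (h3 : ∀ t, ‖V (2 * k + 3) t - tp (S (2 * k + 3)) (a (2 * k + 3)) t‖ ≤ ε (2 * k + 3))
    (h1 : ∀ t, ‖V (2 * k + 1) t - tp (S (2 * k + 1)) (a (2 * k + 1)) t‖ ≤ ε (2 * k + 1)) :
    ‖mvD X V k - mvT S a (fc X) k‖ ≤ er ε k * avn X := by
  classical
  let V' : ℕ → ℝ → ℂ := fun m => if m = 2 * k + 3 ∨ m = 2 * k + 1 then tp (S m) (a m) else V m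
  have e1 : V' (2 * k + 3) = tp (S (2 * k + 3)) (a (2 * k + 3)) := by simp [V']
  have e2 : V' (2 * k + 1) = tp (S (2 * k + 1)) (a (2 * k + 1)) := by simp [V']
  have hV' : ∀ m, ∃ D', BM (V' m) D' := by
    intro m
    by_cases hm : m = 2 * k + 3 ∨ m = 2 * k + 1
    · exact ⟨∑ j ∈ S m, ‖a m j‖, by simp only [V', if_pos hm]; exact tp_BM _ _⟩
    · exact ⟨D m, by simp only [V', if_neg hm]; exact hV m⟩
  choose D' hD' using hV'
  have e3 : mvD X V' k = mvT S a (fc X) k := by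
    rw [← mvD_tp hX]
    unfold mvD
    rw [e1, e2]
  rw [← e3]
  let ε' : ℕ → ℝ := fun m => if m = 2 * k + 3 ∨ m = 2 * k + 1 then ε m else 0
  have f1 : ε' (2 * k + 3) = ε (2 * k + 3) := by simp [ε']
  have f2 : ε' (2 * k + 1) = ε (2 * k + 1) := by simp [ε']
  have := mvD_app hX hV hD' (ε := ε') ?_ k
  · rw [f1, f2] at this
    exact this
  · intro m t
    by_cases hm : m = 2 * k + 3 ∨ m = 2 * k + 1
    · simp only [V', ε', if_pos hm]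
      rcases hm with hm | hm
      · rw [hm]; exact h3 t
      · rw [hm]; exact h1 t
    · simp only [V', ε', if_neg hm, sub_self, norm_zero]
      exact le_rfl

theorem bm_v1 (h : P.Reg) (m : ℕ) : BM (fun t => P.v1 t ^ m) 1 := by
  refine ⟨?_, fun t => ?_⟩
  · unfold Par.v1
    exact ((continuous_ee.measurable.comp ((h.mph1.comp (measurable_id.add_const _)).sub measurable_id))).pow_const m
  · unfold Par.v1
    rw [norm_pow, norm_ee, one_pow]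

theorem bm_v2 (h : P.Reg) (m : ℕ) : BM (fun t => P.v2 t ^ m) 1 := by
  refine ⟨?_, fun t => ?_⟩
  · unfold Par.v2
    exact ((continuous_ee.measurable.comp ((h.mph2.comp (measurable_id.add_const _)).sub measurable_id))).pow_const m
  · unfold Par.v2
    rw [norm_pow, norm_ee, one_pow]

/-- **the aligned moments are close to the finite rows** -/
theorem eA_row (h : P.Reg) (d : Dat b z) (k : ℕ)
    (h1 : ∀ m, (m = 2 * k + 3 ∨ m = 2 * k + 1) → ∀ t, ‖P.v1 t ^ m - tp (S m) (a1 m) t‖ ≤ ε m)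
    (h2 : ∀ m, (m = 2 * k + 3 ∨ m = 2 * k + 1) → ∀ t, ‖P.v2 t ^ m - tp (S m) (a2 m) t‖ ≤ ε m) :
    ‖P.eA b z k - eRow P b z S a1 a2 k‖ ≤ er ε k * (avn (X1 P b z) + avn (X2 P b z)) := by
  obtain ⟨C1, hX1⟩ := bm_X1 h d
  obtain ⟨C2, hX2⟩ := bm_X2 h d
  rw [eA_mov h d]
  unfold eRow
  have p1 := mvD_app2 (S := S) (ε := ε) hX1 (bm_v1 h) a1 k (h1 _ (Or.inl rfl)) (h1 _ (Or.inr rfl))
  have p2 := mvD_app2 (S := S) (ε := ε) hX2 (bm_v2 h) a2 k (h2 _ (Or.inl rfl)) (h2 _ (Or.inr rfl))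
  rw [show mvD (X1 P b z) (fun m t => P.v1 t ^ m) k + mvD (X2 P b z) (fun m t => P.v2 t ^ m) k -
      (mvT S a1 (fc (X1 P b z)) k + mvT S a2 (fc (X2 P b z)) k) =
      (mvD (X1 P b z) (fun m t => P.v1 t ^ m) k - mvT S a1 (fc (X1 P b z)) k) +
      (mvD (X2 P b z) (fun m t => P.v2 t ^ m) k - mvT S a2 (fc (X2 P b z)) k) by ring]
  refine (norm_add_le _ _).trans ?_
  rw [mul_add]
  exact add_le_add p1 p2

/-- **the head of `D2` with finite rows** -/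
theorem D2_head (h : P.Reg) (d : Dat b z) (K0 : ℕ) {η : ℝ} (hν1 : P.nu ≤ 1) (hη : 0 < η) (hη1 : η ≤ 1) (H γ : ℕ → ℂ)
    (h1 : ∀ m < 2 * K0 + 2, ∀ t, ‖P.v1 t ^ m - tp (S m) (a1 m) t‖ ≤ ε m)
    (h2 : ∀ m < 2 * K0 + 2, ∀ t, ‖P.v2 t ^ m - tp (S m) (a2 m) t‖ ≤ ε m) :
    ∑ k ∈ Finset.range K0, ht P.nu η (H k) (γ k) (eRow P b z S a1 a2 k) (lk k)
      - 8 / η * (∑ k ∈ Finset.range K0, er ε k ^ 2) * mass P b z
      ≤ ∑ k ∈ Finset.range K0, ht P.nu 0 (H k) (γ k) (P.eA b z k) (lk k) := by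
  rw [Finset.mul_sum, Finset.sum_mul, ← Finset.sum_sub_distrib]
  refine Finset.sum_le_sum fun k hk => ?_
  have hk' := Finset.mem_range.1 hk
  have hl : 3 ≤ lk k ^ 2 - 1 := by
    have := lk_ge k
    nlinarith
  have e := eA_row (S := S) (a1 := a1) (a2 := a2) (ε := ε) h d k (fun m hm => h1 m (by omega)) (fun m hm => h2 m (by omega))
  have p := ht_pert (H := H k) (γ := γ k) h.nu0 hν1 hη hη1 hl e
  have hm := avn_mass h d
  refine le_trans ?_ p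
  have q : 2 / η * (er ε k * (avn (X1 P b z) + avn (X2 P b z))) ^ 2 ≤ 8 / η * er ε k ^ 2 * mass P b z := by
    have e1 : 2 / η * (er ε k * (avn (X1 P b z) + avn (X2 P b z))) ^ 2 =
        2 / η * er ε k ^ 2 * (avn (X1 P b z) + avn (X2 P b z)) ^ 2 := by ring
    rw [e1]
    have := mul_le_mul_of_nonneg_left hm (show 0 ≤ 2 / η * er ε k ^ 2 by positivity)
    refine this.trans (le_of_eq ?_)
    ring
  linarith

/-! ## The aligned length -/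

/-- the finite row of the aligned length -/
noncomputable def e0Row (P : Par) (b z : ℝ → ℂ) (S : ℕ → Finset ℤ) (a1 a2 : ℕ → ℤ → ℂ) : ℝ :=
  (∑ n ∈ S 1, (starRingEnd ℂ) (a1 1 n) * fc (X1 P b z) n).re + (∑ n ∈ S 1, (starRingEnd ℂ) (a2 1 n) * fc (X2 P b z) n).re

theorem av_tp {X : ℝ → ℂ} {C : ℝ} (hX : BM X C) (S : Finset ℤ) (a : ℤ → ℂ) (l : ℤ) :
    (av fun t => X t * (starRingEnd ℂ) (tp S a t) * ee (-((l : ℝ) * t))) = ∑ n ∈ S, (starRingEnd ℂ) (a n) * fc X (n + l) := by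
  have e : ∀ t, X t * (starRingEnd ℂ) (tp S a t) * ee (-((l : ℝ) * t)) =
      ∑ n ∈ S, (starRingEnd ℂ) (a n) * (X t * ee (-(((n + l : ℤ) : ℝ) * t))) := by
    intro t
    unfold tp
    rw [map_sum, Finset.mul_sum, Finset.sum_mul]
    apply Finset.sum_congr rfl
    intro n _
    rw [map_mul, ← ee_neg, show -(((n + l : ℤ) : ℝ) * t) = -((n : ℝ) * t) + -((l : ℝ) * t) by push_cast; ring, ee_add]
    ring
  simp_rw [e]
  rw [av_sum (f := fun n t => (starRingEnd ℂ) (a n) * (X t * ee (-(((n + l : ℤ) : ℝ) * t))))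
    (C := fun n => ‖(starRingEnd ℂ) (a n)‖ * (C * 1)) (S := S)]
  · apply Finset.sum_congr rfl
    intro n _
    rw [av_cmul, av_fc]
  · intro n
    have e5 : ∀ t : ℝ, ee (-(((n + l : ℤ) : ℝ) * t)) = ee ((-((n + l : ℤ) : ℝ)) * t) := fun t => by congr 1; ring
    simp_rw [e5]
    exact (hX.mul (BM.eec _)).cmul _

/-- a mean with an approximated factor -/
theorem av_app {X v V : ℝ → ℂ} {C D D' ε : ℝ} (hX : BM X C) (hv : BM v D) (hV : BM V D') (hε : ∀ t, ‖v t - V t‖ ≤ ε)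
    (l : ℝ) : ‖(av fun t => X t * (starRingEnd ℂ) (v t) * ee (-(l * t))) - (av fun t => X t * (starRingEnd ℂ) (V t) * ee (-(l * t)))‖
      ≤ ε * avn X := by
  have e5 : ∀ t : ℝ, ee (-(l * t)) = ee ((-l) * t) := fun t => by congr 1; ring
  have b1 : BM (fun t => X t * (starRingEnd ℂ) (v t) * ee (-(l * t))) (C * D * 1) := by
    simp_rw [e5]
    exact (hX.mul hv.conj).mul (BM.eec _)
  have b2 : BM (fun t => X t * (starRingEnd ℂ) (V t) * ee (-(l * t))) (C * D' * 1) := by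
    simp_rw [e5]
    exact (hX.mul hV.conj).mul (BM.eec _)
  rw [← av_sub b1 b2]
  refine av_small hX fun t => ?_
  rw [show X t * (starRingEnd ℂ) (v t) * ee (-(l * t)) - X t * (starRingEnd ℂ) (V t) * ee (-(l * t))
    = (starRingEnd ℂ) (v t - V t) * X t * ee (-(l * t)) by rw [map_sub]; ring,
    norm_mul, norm_mul, norm_ee, mul_one, RCLike.norm_conj]
  exact mul_le_mul_of_nonneg_right (hε t) (norm_nonneg _)

theorem av_tp_app {X v : ℝ → ℂ} {C D ε : ℝ} (hX : BM X C) (hv : BM v D) (S : Finset ℤ) (a : ℤ → ℂ)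
    (hε : ∀ t, ‖v t - tp S a t‖ ≤ ε) (l : ℤ) :
    ‖(av fun t => X t * (starRingEnd ℂ) (v t) * ee (-((l : ℝ) * t))) - ∑ n ∈ S, (starRingEnd ℂ) (a n) * fc X (n + l)‖
      ≤ ε * avn X := by
  rw [← av_tp hX]
  exact av_app hX hv (tp_BM S a) hε _

/-- **the aligned length is close to a finite row** -/
theorem e00_row (h : P.Reg) (d : Dat b z) (h1 : ∀ t, ‖P.v1 t - tp (S 1) (a1 1) t‖ ≤ ε 1)
    (h2 : ∀ t, ‖P.v2 t - tp (S 1) (a2 1) t‖ ≤ ε 1) :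
    |P.e00 b z - e0Row P b z S a1 a2| ≤ ε 1 * (avn (X1 P b z) + avn (X2 P b z)) := by
  obtain ⟨C1, hX1⟩ := bm_X1 h d
  obtain ⟨C2, hX2⟩ := bm_X2 h d
  have b1 := bm_v1 h 1
  have b2 := bm_v2 h 1
  simp only [pow_one] at b1 b2
  have p1 := av_tp_app hX1 b1 (S 1) (a1 1) h1 0
  have p2 := av_tp_app hX2 b2 (S 1) (a2 1) h2 0
  simp only [Int.cast_zero, zero_mul, neg_zero, ee_zero, mul_one, add_zero] at p1 p2
  rw [e00_mov h d]
  unfold e0Row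
  set x1 := (av fun t => X1 P b z t * (starRingEnd ℂ) (P.v1 t))
  set x2 := (av fun t => X2 P b z t * (starRingEnd ℂ) (P.v2 t))
  set y1 := ∑ n ∈ S 1, (starRingEnd ℂ) (a1 1 n) * fc (X1 P b z) n
  set y2 := ∑ n ∈ S 1, (starRingEnd ℂ) (a2 1 n) * fc (X2 P b z) n
  have q1 := (Complex.abs_re_le_norm (x1 - y1)).trans p1
  have q2 := (Complex.abs_re_le_norm (x2 - y2)).trans p2
  rw [Complex.sub_re] at q1 q2
  rw [show x1.re + x2.re - (y1.re + y2.re) = (x1.re - y1.re) + (x2.re - y2.re) by ring, mul_add]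
  exact (abs_add_le _ _).trans (add_le_add q1 q2)

end

end Helper85.SH
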