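import Pool.Agent.Helper85.SH.Row

/-!
# Project RC, SHARP: finite rows for the tangent part

`T1_form`: `T1 t e = Re ((conj u - η e^{2it} u + (1/3) conj η e^{-2it} conj u³) e)` for `a0 = 0`.  `T_row`: the mean
`⟨w (T1(g1) + T2(g2))⟩` is close to the finite row `tRow`; `lam_row`: `⟨w Re (conj(u1 - v1) g1 + conj(u2 - v2) g2)⟩` is the
aligned length along `u` minus the aligned length along `v`.
-/

open MeasureTheory Set Filter Topology

namespace Helper85.SH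

open Helper49.LT hiding sg
open Helper49.RC (om)
open Helper95.RC
open Helper95.SH
open Helper87.RC (Fam BM intg_of_bddC intg_of_bdd fc_eq fc_sub fc_cmul fc_add fc_conj pars pars2 fc_G1 fc_G2)
open Helper56.RC (fc)
open Helper44.GQ (aQ cQ AdmQ A0Q AAQ BBQ FMQ mQ Rq F1Q F2Q)
open Helper49.RC (vvS Wgt)
open Pool.Agent.Helper20.RC (lk lk_ge lk_sq eD eM sM DensI alQ wR wR_wgt hw)
open Helper49.Sharp (Par g1 g2 Hk D2 mean hA hA1)

theorem hA_zero (a : ℝ) : hA (fun _ => 0) a = 0 := by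
  unfold hA
  simp

theorem hA1_zero (a : ℝ) : hA1 (fun _ => 0) a = 0 := by
  unfold hA1
  simp

/-- the factor of the tangent functional -/
noncomputable def tf (η : ℂ) (u : ℂ) (t : ℝ) : ℂ :=
  (starRingEnd ℂ) u - η * ee (2 * t) * u + 1 / 3 * (starRingEnd ℂ) η * ee (-(2 * t)) * (starRingEnd ℂ) (u ^ 3)

theorem tf_form (η : ℂ) (u e : ℂ) (t : ℝ) (hu : ‖u‖ = 1) (E : ℂ) (hE : E = η * (ee (2 * t) * u ^ 2)) :
    (1 - 2 / 3 * E.re) * ((starRingEnd ℂ) u * e).re + 4 / 3 * E.im * ((starRingEnd ℂ) u * e).im =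
      (tf η u t * e).re := by
  have h1 : u * (starRingEnd ℂ) u = 1 := by rw [Complex.mul_conj, Complex.normSq_eq_norm_sq, hu]; norm_num
  have h2 : tf η u t = (1 - E + 1 / 3 * (starRingEnd ℂ) E) * (starRingEnd ℂ) u := by
    unfold tf
    rw [hE, map_mul, map_mul, ← ee_neg, map_pow, map_pow]
    linear_combination (η * ee (2 * t) * u) * h1
  have h3 : (1 - E + 1 / 3 * (starRingEnd ℂ) E : ℂ) = ((1 - 2 / 3 * E.re : ℝ) : ℂ) - Complex.I * ((4 / 3 * E.im : ℝ) : ℂ) := by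
    apply Complex.ext
    · simp; ring
    · simp; ring
  have h4 : tf η u t * e = (((1 - 2 / 3 * E.re : ℝ) : ℂ) - Complex.I * ((4 / 3 * E.im : ℝ) : ℂ)) * ((starRingEnd ℂ) u * e) := by
    rw [h2, h3]; ring
  rw [h4]
  generalize (starRingEnd ℂ) u * e = y
  rw [Complex.mul_re]
  simp

section

variable {P : Par} {b z : ℝ → ℂ}

theorem T1_form (h0 : P.a0 = fun _ => 0) (t : ℝ) (e : ℂ) : P.T1 t e = (tf P.eta (P.u1 t) t * e).re := by
  have hu : ‖P.u1 t‖ = 1 := by unfold Par.u1; exact norm_ee _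
  have hE : P.eta * ee (2 * P.th1 t) = P.eta * (ee (2 * t) * P.u1 t ^ 2) := by
    unfold Par.th1 Par.u1
    rw [ee_npow, ← ee_add]
    congr 2
    push_cast
    ring
  rw [← tf_form P.eta (P.u1 t) e t hu _ hE]
  unfold Par.T1 Par.H Par.H1
  rw [h0, hA_zero, hA1_zero]
  unfold hw
  simp only [zero_mul, Complex.zero_re, zero_div, add_zero]
  ring

theorem T2_form (h0 : P.a0 = fun _ => 0) (t : ℝ) (e : ℂ) : P.T2 t e = (tf P.eta (P.u2 t) t * e).re := by
  have hu : ‖P.u2 t‖ = 1 := by unfold Par.u2; exact norm_ee _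
  have hE : P.eta * ee (2 * P.th2 t) = P.eta * (ee (2 * t) * P.u2 t ^ 2) := by
    unfold Par.th2 Par.u2
    rw [ee_npow, ← ee_add]
    congr 2
    push_cast
    ring
  rw [← tf_form P.eta (P.u2 t) e t hu _ hE]
  unfold Par.T2 Par.H Par.H1
  rw [h0, hA_zero, hA1_zero]
  unfold hw
  simp only [zero_mul, Complex.zero_re, zero_div, add_zero]
  ring

end

/-- real part of a mean -/
theorem av_re {f : ℝ → ℂ} {C : ℝ} (hf : BM f C) : (av f).re = mean fun t => (f t).re := by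
  unfold av mean
  have h1 := Complex.reCLM.intervalIntegral_comp_comm (hf.i 0 (2 * Real.pi))
  simp only [Complex.reCLM_apply] at h1
  rw [h1, show (1 / (2 * Real.pi) : ℂ) = ((1 / (2 * Real.pi) : ℝ) : ℂ) by push_cast; rfl, Complex.re_ofReal_mul]

/-- the row of the tangent functional of one family: `x` the coefficients of `X`, `a m` those of `u^m` -/
noncomputable def tRow (η : ℂ) (S : ℕ → Finset ℤ) (a : ℕ → ℤ → ℂ) (x : ℤ → ℂ) : ℝ :=
  (∑ n ∈ S 1, (starRingEnd ℂ) (a 1 n) * x n).re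
  - ((starRingEnd ℂ) η * ∑ n ∈ S 1, (starRingEnd ℂ) (a 1 n * x (-(n + 2)))).re
  + 1 / 3 * ((starRingEnd ℂ) η * ∑ n ∈ S 3, (starRingEnd ℂ) (a 3 n) * x (n + 2)).re

section

variable {X u : ℝ → ℂ} {C : ℝ} {S : ℕ → Finset ℤ} {a : ℕ → ℤ → ℂ} {ε : ℕ → ℝ}

theorem fc_conj2 (X : ℝ → ℂ) (n : ℤ) : fc (fun t => (starRingEnd ℂ) (X t)) n = (starRingEnd ℂ) (fc X (-n)) := by
  rw [← av_fc, ← av_fc, ← av_conj]
  congr 1
  funext t
  rw [map_mul, ← ee_neg]
  congr 2
  push_cast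
  ring

/-- **the mean of the tangent functional of one family** -/
theorem tf_row (hX : BM X C) (hu : Measurable u) (hu1 : ∀ t, ‖u t‖ = 1) (η : ℂ)
    (h1 : ∀ t, ‖u t - tp (S 1) (a 1) t‖ ≤ ε 1) (h3 : ∀ t, ‖u t ^ 3 - tp (S 3) (a 3) t‖ ≤ ε 3) :
    |(mean fun t => (tf η (u t) t * X t).re) - tRow η S a (fc X)| ≤ ((1 + ‖η‖) * ε 1 + ‖η‖ / 3 * ε 3) * avn X := by
  have bu : BM u 1 := ⟨hu, fun t => (hu1 t).le⟩
  have bu3 : BM (fun t => u t ^ 3) 1 := ⟨hu.pow_const 3, fun t => by rw [norm_pow, hu1, one_pow]⟩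
  have p1 := av_tp_app hX bu (S 1) (a 1) h1 0
  have p2 := av_tp_app hX.conj bu (S 1) (a 1) h1 2
  have p3 := av_tp_app hX bu3 (S 3) (a 3) h3 2
  simp only [Int.cast_zero, zero_mul, neg_zero, ee_zero, mul_one, add_zero] at p1
  have hn : avn (fun t => (starRingEnd ℂ) (X t)) = avn X := by unfold avn; simp only [RCLike.norm_conj]
  rw [hn] at p2
  simp only [Int.cast_ofNat] at p2 p3
  set A1 := (av fun t => X t * (starRingEnd ℂ) (u t)) with hA1
  set A2 := (av fun t => (starRingEnd ℂ) (X t) * (starRingEnd ℂ) (u t) * ee (-(2 * t))) with hA2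
  set A3 := (av fun t => X t * (starRingEnd ℂ) (u t ^ 3) * ee (-(2 * t))) with hA3
  have e5 : ∀ t : ℝ, ee (-(2 * t)) = ee ((-2) * t) := fun t => by congr 1; ring
  have b1 : BM (fun t => X t * (starRingEnd ℂ) (u t)) (C * 1) := hX.mul bu.conj
  have b2 : BM (fun t => (starRingEnd ℂ) (X t) * (starRingEnd ℂ) (u t) * ee (-(2 * t))) (C * 1 * 1) := by
    simp_rw [e5]; exact (hX.conj.mul bu.conj).mul (BM.eec _)
  have b3 : BM (fun t => X t * (starRingEnd ℂ) (u t ^ 3) * ee (-(2 * t))) (C * 1 * 1) := by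
    simp_rw [e5]; exact (hX.mul bu3.conj).mul (BM.eec _)
  have key : (mean fun t => (tf η (u t) t * X t).re) = A1.re - ((starRingEnd ℂ) η * A2).re
      + 1 / 3 * ((starRingEnd ℂ) η * A3).re := by
    have e1 : (A1 - (starRingEnd ℂ) η * A2) + (1 / 3 * (starRingEnd ℂ) η) * A3 =
        av fun t => (X t * (starRingEnd ℂ) (u t) - (starRingEnd ℂ) η * ((starRingEnd ℂ) (X t) * (starRingEnd ℂ) (u t) * ee (-(2 * t))))
          + (1 / 3 * (starRingEnd ℂ) η) * (X t * (starRingEnd ℂ) (u t ^ 3) * ee (-(2 * t))) := by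
      rw [av_add (b1.sub (b2.cmul _)) (b3.cmul _), av_sub b1 (b2.cmul _), av_cmul, av_cmul]
    have e2 : A1.re - ((starRingEnd ℂ) η * A2).re + 1 / 3 * ((starRingEnd ℂ) η * A3).re =
        ((A1 - (starRingEnd ℂ) η * A2) + (1 / 3 * (starRingEnd ℂ) η) * A3).re := by
      rw [Complex.add_re, Complex.sub_re, show (1 / 3 * (starRingEnd ℂ) η) * A3 = ((1 / 3 : ℝ) : ℂ) * ((starRingEnd ℂ) η * A3) by
        push_cast; ring, Complex.re_ofReal_mul]
    rw [e2, e1, av_re ((b1.sub (b2.cmul _)).add (b3.cmul _))]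
    congr 1
    funext t
    unfold tf
    have e3 : ((starRingEnd ℂ) η * ((starRingEnd ℂ) (X t) * (starRingEnd ℂ) (u t) * ee (-(2 * t)))) =
        (starRingEnd ℂ) (η * ee (2 * t) * u t * X t) := by
      rw [map_mul, map_mul, map_mul, ← ee_neg]; ring
    rw [e3, Complex.add_re, Complex.sub_re, Complex.conj_re, ← Complex.sub_re, ← Complex.add_re]
    congr 1
    ring
  have q1 := (Complex.abs_re_le_norm _).trans p1
  rw [Complex.sub_re] at q1
  have q2 : |((starRingEnd ℂ) η * A2).re - ((starRingEnd ℂ) η * ∑ n ∈ S 1, (starRingEnd ℂ) (a 1 n) * fc (fun t => (starRingEnd ℂ) (X t)) (n + 2)).re|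
      ≤ ‖η‖ * (ε 1 * avn X) := by
    rw [← Complex.sub_re, ← mul_sub]
    refine (Complex.abs_re_le_norm _).trans ?_
    rw [norm_mul, RCLike.norm_conj]
    exact mul_le_mul_of_nonneg_left p2 (norm_nonneg _)
  have q3 : |((starRingEnd ℂ) η * A3).re - ((starRingEnd ℂ) η * ∑ n ∈ S 3, (starRingEnd ℂ) (a 3 n) * fc X (n + 2)).re|
      ≤ ‖η‖ * (ε 3 * avn X) := by
    rw [← Complex.sub_re, ← mul_sub]
    refine (Complex.abs_re_le_norm _).trans ?_
    rw [norm_mul, RCLike.norm_conj]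
    exact mul_le_mul_of_nonneg_left p3 (norm_nonneg _)
  have e6 : ∑ n ∈ S 1, (starRingEnd ℂ) (a 1 n) * fc (fun t => (starRingEnd ℂ) (X t)) (n + 2) =
      ∑ n ∈ S 1, (starRingEnd ℂ) (a 1 n * fc X (-(n + 2))) := by
    apply Finset.sum_congr rfl
    intro n _
    rw [fc_conj2, map_mul]
  rw [e6] at q2
  rw [key]
  unfold tRow
  rw [abs_le] at q1 q2 q3 ⊢
  constructor <;> linarith [q1.1, q1.2, q2.1, q2.2, q3.1, q3.2]

end

section

variable {P : Par} {b z : ℝ → ℂ} {S : ℕ → Finset ℤ} {a1 a2 : ℕ → ℤ → ℂ} {ε : ℕ → ℝ}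

/-- **the tangent part is close to a finite row** -/
theorem T_row (h : P.Reg) (h0 : P.a0 = fun _ => 0) (d : Dat b z)
    (u1 : ∀ t, ‖P.u1 t - tp (S 1) (a1 1) t‖ ≤ ε 1) (u3 : ∀ t, ‖P.u1 t ^ 3 - tp (S 3) (a1 3) t‖ ≤ ε 3)
    (v1 : ∀ t, ‖P.u2 t - tp (S 1) (a2 1) t‖ ≤ ε 1) (v3 : ∀ t, ‖P.u2 t ^ 3 - tp (S 3) (a2 3) t‖ ≤ ε 3) :
    |(mean fun t => P.w t * (P.T1 t (g1 (b t) (z t)) + P.T2 t (g2 (b t) (z t))))
      - (tRow P.eta S a1 (fc (X1 P b z)) + tRow P.eta S a2 (fc (X2 P b z)))|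
      ≤ ((1 + ‖P.eta‖) * ε 1 + ‖P.eta‖ / 3 * ε 3) * (avn (X1 P b z) + avn (X2 P b z)) := by
  obtain ⟨C1, hX1⟩ := bm_X1 h d
  obtain ⟨C2, hX2⟩ := bm_X2 h d
  have m1 : Measurable P.u1 := by unfold Par.u1; exact continuous_ee.measurable.comp h.ma1
  have m2 : Measurable P.u2 := by unfold Par.u2; exact continuous_ee.measurable.comp h.ma2
  have n1 : ∀ t, ‖P.u1 t‖ = 1 := fun t => by unfold Par.u1; exact norm_ee _
  have n2 : ∀ t, ‖P.u2 t‖ = 1 := fun t => by unfold Par.u2; exact norm_ee _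
  have p1 := tf_row (S := S) (a := a1) (ε := ε) hX1 m1 n1 P.eta u1 u3
  have p2 := tf_row (S := S) (a := a2) (ε := ε) hX2 m2 n2 P.eta v1 v3
  have bt : ∀ (u : ℝ → ℂ), Measurable u → (∀ t, ‖u t‖ = 1) → BM (fun t => tf P.eta (u t) t) (1 + ‖P.eta‖ + 1 / 3 * ‖P.eta‖) := by
    intro u hu hn
    constructor
    · unfold tf
      have c2 : Measurable fun t : ℝ => ee (2 * t) := continuous_ee.measurable.comp (measurable_id.const_mul 2)
      have c3 : Measurable fun t : ℝ => ee (-(2 * t)) := continuous_ee.measurable.comp (measurable_id.const_mul 2).neg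
      exact ((Complex.continuous_conj.measurable.comp hu).sub ((c2.const_mul _).mul hu)).add
        ((c3.const_mul _).mul (Complex.continuous_conj.measurable.comp (hu.pow_const 3)))
    · intro t
      unfold tf
      refine (norm_add_le _ _).trans (add_le_add ((norm_sub_le _ _).trans (le_of_eq ?_)) (le_of_eq ?_))
      · rw [RCLike.norm_conj, hn, norm_mul, norm_mul, hn, norm_ee, mul_one, mul_one]
      · rw [norm_mul, norm_mul, norm_mul, RCLike.norm_conj, RCLike.norm_conj, norm_ee, norm_pow, hn]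
        norm_num
  have r1 := av_re ((bt _ m1 n1).mul hX1)
  have r2 := av_re ((bt _ m2 n2).mul hX2)
  have key : (mean fun t => P.w t * (P.T1 t (g1 (b t) (z t)) + P.T2 t (g2 (b t) (z t)))) =
      (mean fun t => (tf P.eta (P.u1 t) t * X1 P b z t).re) + (mean fun t => (tf P.eta (P.u2 t) t * X2 P b z t).re) := by
    rw [← r1, ← r2, ← Complex.add_re, ← av_add ((bt _ m1 n1).mul hX1) ((bt _ m2 n2).mul hX2),
      av_re (((bt _ m1 n1).mul hX1).add ((bt _ m2 n2).mul hX2))]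
    congr 1
    funext t
    rw [T1_form h0, T2_form h0, Complex.add_re]
    unfold X1 X2
    rw [show tf P.eta (P.u1 t) t * ((P.w t : ℂ) * g1 (b t) (z t)) = (P.w t : ℂ) * (tf P.eta (P.u1 t) t * g1 (b t) (z t)) by ring,
      show tf P.eta (P.u2 t) t * ((P.w t : ℂ) * g2 (b t) (z t)) = (P.w t : ℂ) * (tf P.eta (P.u2 t) t * g2 (b t) (z t)) by ring,
      Complex.re_ofReal_mul, Complex.re_ofReal_mul]
    ring
  rw [key, mul_add]
  rw [abs_le] at p1 p2 ⊢
  constructor <;> linarith [p1.1, p1.2, p2.1, p2.2]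

/-- the price term: aligned length along `u` minus aligned length along `v` -/
theorem lam_form (h : P.Reg) (d : Dat b z) :
    (mean fun t => P.w t * (((starRingEnd ℂ) (P.u1 t - P.v1 t) * g1 (b t) (z t)).re
      + ((starRingEnd ℂ) (P.u2 t - P.v2 t) * g2 (b t) (z t)).re)) =
    (av fun t => X1 P b z t * (starRingEnd ℂ) (P.u1 t)).re + (av fun t => X2 P b z t * (starRingEnd ℂ) (P.u2 t)).re
      - P.e00 b z := by
  obtain ⟨C1, hX1⟩ := bm_X1 h d
  obtain ⟨C2, hX2⟩ := bm_X2 h d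
  have m1 : BM P.u1 1 := by
    unfold Par.u1; exact ⟨continuous_ee.measurable.comp h.ma1, fun t => (norm_ee _).le⟩
  have m2 : BM P.u2 1 := by
    unfold Par.u2; exact ⟨continuous_ee.measurable.comp h.ma2, fun t => (norm_ee _).le⟩
  have b1 := bm_v1 h 1
  have b2 := bm_v2 h 1
  simp only [pow_one] at b1 b2
  rw [e00_mov h d]
  have s1 := (hX1.mul m1.conj).sub (hX1.mul b1.conj)
  have s2 := (hX2.mul m2.conj).sub (hX2.mul b2.conj)
  rw [show (av fun t => X1 P b z t * (starRingEnd ℂ) (P.u1 t)).re + (av fun t => X2 P b z t * (starRingEnd ℂ) (P.u2 t)).re -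
      ((av fun t => X1 P b z t * (starRingEnd ℂ) (P.v1 t)).re + (av fun t => X2 P b z t * (starRingEnd ℂ) (P.v2 t)).re) =
      (((av fun t => X1 P b z t * (starRingEnd ℂ) (P.u1 t)) - (av fun t => X1 P b z t * (starRingEnd ℂ) (P.v1 t)))
      + ((av fun t => X2 P b z t * (starRingEnd ℂ) (P.u2 t)) - (av fun t => X2 P b z t * (starRingEnd ℂ) (P.v2 t)))).re by
      rw [Complex.add_re, Complex.sub_re, Complex.sub_re]; ring,
    ← av_sub (hX1.mul m1.conj) (hX1.mul b1.conj), ← av_sub (hX2.mul m2.conj) (hX2.mul b2.conj), ← av_add s1 s2,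
    av_re (s1.add s2)]
  congr 1
  funext t
  unfold X1 X2
  rw [map_sub, map_sub, show (P.w t : ℂ) * g1 (b t) (z t) * (starRingEnd ℂ) (P.u1 t) - (P.w t : ℂ) * g1 (b t) (z t) * (starRingEnd ℂ) (P.v1 t)
      + ((P.w t : ℂ) * g2 (b t) (z t) * (starRingEnd ℂ) (P.u2 t) - (P.w t : ℂ) * g2 (b t) (z t) * (starRingEnd ℂ) (P.v2 t)) =
      (P.w t : ℂ) * (((starRingEnd ℂ) (P.u1 t) - (starRingEnd ℂ) (P.v1 t)) * g1 (b t) (z t)
        + ((starRingEnd ℂ) (P.u2 t) - (starRingEnd ℂ) (P.v2 t)) * g2 (b t) (z t)) by ring,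
    Complex.re_ofReal_mul, Complex.add_re]

end

end Helper85.SH
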